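import Pool.Agent.Lib.Tate.Inj.Spec

/-!
# C42, block Inj: arcs (helper12)
-/

set_option autoImplicit false

open Set Filter Topology Metric
open scoped OnePoint

noncomputable section

namespace Pool.Agent.Tate.Cel

namespace Arx

/-- The arc. -/
def c (t : ℝ) : Circle := Circle.exp (Real.pi * (t + 1) / 4)

theorem c4 (t : ℝ) : c t ^ 4 = Circle.exp (Real.pi * (t + 1)) := by
  apply Circle.ext
  rw [Circle.coe_pow]
  unfold c
  rw [Circle.coe_exp, Circle.coe_exp, ← Complex.exp_nat_mul]
  congr 1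
  push_cast
  ring

theorem inj {x y : ℝ} (hx : 0 ≤ x) (hx2 : x < 2 * Real.pi) (hy : 0 ≤ y) (hy2 : y < 2 * Real.pi)
    (h : Circle.exp x = Circle.exp y) : x = y := by
  obtain ⟨m, hm⟩ := Circle.exp_eq_exp.1 h
  have hp := Real.pi_pos
  have h1 : (m : ℝ) < 1 := by
    by_contra hc
    rw [not_lt] at hc
    nlinarith
  have h2 : (-1 : ℝ) < m := by
    by_contra hc
    rw [not_lt] at hc
    nlinarith
  have h3 : m = 0 := by
    have a : m < 1 := by exact_mod_cast h1
    have b : -1 < m := by exact_mod_cast h2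
    omega
  rw [hm, h3]
  simp

end Arx

theorem pAr : S_Ar := by
  have hp := Real.pi_pos
  refine ⟨Arx.c, ?_, ?_, ?_, ?_, ?_, ?_⟩
  · unfold Arx.c
    exact Circle.exp.continuous.comp (by fun_prop)
  · rw [Arx.c4]
    simp
  · rw [Arx.c4]
    have : Real.pi * (1 + 1) = 2 * Real.pi := by ring
    rw [this, Circle.exp_two_pi]
  · intro t ht h
    rw [abs_lt] at ht
    rw [Arx.c4, ← Circle.exp_zero] at h
    have h1 : 0 < Real.pi * (t + 1) := by
      have : 0 < t + 1 := by linarith
      positivity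
    have := Arx.inj h1.le (by nlinarith) le_rfl (by linarith) h
    linarith
  · intro t t' ht ht' h
    rw [abs_lt] at ht ht'
    rw [Arx.c4, Arx.c4] at h
    have h1 : 0 < Real.pi * (t + 1) := by
      have : 0 < t + 1 := by linarith
      positivity
    have h2 : 0 < Real.pi * (t' + 1) := by
      have : 0 < t' + 1 := by linarith
      positivity
    have h3 := Arx.inj h1.le (by nlinarith) h2.le (by nlinarith) h
    have h4 := mul_left_cancel₀ hp.ne' h3
    linarith
  · intro ζ hζ
    obtain ⟨θ, h1, h2, h3⟩ : ∃ θ : ℝ, 0 < θ ∧ θ < 2 * Real.pi ∧ Circle.exp θ = ζ ^ 4 := by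
      have e := Circle.exp_arg (ζ ^ 4)
      have a1 := Complex.arg_le_pi ((ζ ^ 4 : Circle) : ℂ)
      have a2 := Complex.neg_pi_lt_arg ((ζ ^ 4 : Circle) : ℂ)
      rcases lt_trichotomy (Complex.arg ((ζ ^ 4 : Circle) : ℂ)) 0 with h | h | h
      · refine ⟨Complex.arg ((ζ ^ 4 : Circle) : ℂ) + 2 * Real.pi, by linarith, by linarith, ?_⟩
        rw [Circle.exp_add, e, Circle.exp_two_pi, mul_one]
      · rw [h, Circle.exp_zero] at e
        exact absurd e.symm hζ
      · exact ⟨_, h, by linarith, e⟩
    refine ⟨θ / Real.pi - 1, ?_, ?_⟩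
    · rw [abs_lt]
      constructor
      · have : 0 < θ / Real.pi := by positivity
        linarith
      · have : θ / Real.pi < 2 := by rw [div_lt_iff₀ hp]; linarith
        linarith
    · rw [div_pow, Arx.c4]
      have : Real.pi * (θ / Real.pi - 1 + 1) = θ := by field_simp; ring
      rw [this, h3, div_self']

end Pool.Agent.Tate.Cel
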