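import Pool.Agent.Lib.Tate.Inj.Spec

/-!
# C42, block Inj: the boundary values on the cell are continuous
-/

set_option autoImplicit false

open Set Filter Topology Metric
open scoped OnePoint

noncomputable section

namespace Pool.Agent.Tate.Cel

namespace BdAux

theorem qq_mem {X E W : Type} [NormedAddCommGroup W] [NormedSpace ℝ W] (Φ : E → X)
    (C : Set ((X × W) × ℝ)) (p : E × W × ℝ)
    (h : ∀ w : W, (((Φ p.1, w), (p.2.2 + 1) / 2) : (X × W) × ℝ) ∈ C) :
    qq W Φ p ∈ insert ∞ ((fun z : (X × W) × ℝ => (z : OnePoint ((X × W) × ℝ))) '' C) := by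
  unfold qq
  rcases hsg : sg W p.2.1 with _ | v
  · left
    rfl
  · right
    exact ⟨_, h v, rfl⟩

theorem hat_qq {X E W Y : Type} [NormedAddCommGroup W] [NormedSpace ℝ W] (Φ : E → X) (y0 : Y)
    (h h' : (X × W) × ℝ → Y) (p : E × W × ℝ)
    (he : ∀ w : W, h ((Φ p.1, w), (p.2.2 + 1) / 2) = h' ((Φ p.1, w), (p.2.2 + 1) / 2)) :
    hat y0 h (qq W Φ p) = hat y0 h' (qq W Φ p) := by
  unfold qq
  rcases hsg : sg W p.2.1 with _ | v
  · rfl
  · exact he v

theorem hat_qq_const {X E W Y : Type} [NormedAddCommGroup W] [NormedSpace ℝ W] (Φ : E → X)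
    (y0 : Y) (h : (X × W) × ℝ → Y) (p : E × W × ℝ)
    (he : ∀ w : W, h ((Φ p.1, w), (p.2.2 + 1) / 2) = y0) :
    hat y0 h (qq W Φ p) = y0 := by
  unfold qq
  rcases hsg : sg W p.2.1 with _ | v
  · rfl
  · exact he v

end BdAux

open BdAux in
theorem pBd (h1 : S_Qc) (_h2 : S_Ha) (h3 : S_Co) : S_Bd := by
  intro X E W Y _ _ _ _ _ _ _ _ _ _ y0 A Φ f H hΦ hA hf hH hH01
  have hqc := h1 X E W Φ hΦ
  have hn : ∀ p : E × W × ℝ, ‖p‖ = max ‖p.1‖ (max ‖p.2.1‖ ‖p.2.2‖) := fun p => rfl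
  have hsub : ∀ p ∈ sphere (0 : E × W × ℝ) 1, ‖p.1‖ ≤ 1 ∧ ‖p.2.1‖ ≤ 1 ∧ |p.2.2| ≤ 1 := by
    intro p hp
    rw [mem_sphere_zero_iff_norm, hn] at hp
    refine ⟨?_, ?_, ?_⟩
    · rw [← hp]
      exact le_max_left _ _
    · rw [← hp]
      exact (le_max_left _ _).trans (le_max_right _ _)
    · rw [← hp, ← Real.norm_eq_abs]
      exact (le_max_right _ _).trans (le_max_right _ _)
  have hsub' : sphere (0 : E × W × ℝ) 1 ⊆ closedBall (0 : E) 1 ×ˢ (univ : Set (W × ℝ)) := by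
    intro p hp
    exact ⟨mem_closedBall_zero_iff.mpr (hsub p hp).1, mem_univ _⟩
  set S₁ : Set (E × W × ℝ) := sphere 0 1 ∩ {p | ‖p.2.1‖ = 1} with hS1
  set S₂ : Set (E × W × ℝ) := sphere 0 1 ∩ {p | p.2.2 = -1} with hS2
  set S₃ : Set (E × W × ℝ) := sphere 0 1 ∩ {p | p.2.2 = 1} with hS3
  set S₄ : Set (E × W × ℝ) := sphere 0 1 ∩ {p | ‖p.1‖ = 1} with hS4
  have hcov : sphere (0 : E × W × ℝ) 1 = ((S₁ ∪ S₂) ∪ S₃) ∪ S₄ := by
    ext p
    constructor
    · intro hp
      have hp' := hp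
      rw [mem_sphere_zero_iff_norm, hn] at hp'
      rcases max_choice ‖p.1‖ (max ‖p.2.1‖ ‖p.2.2‖) with h | h
      · rw [h] at hp'
        exact Or.inr ⟨hp, hp'⟩
      · rw [h] at hp'
        rcases max_choice ‖p.2.1‖ ‖p.2.2‖ with h4 | h4
        · rw [h4] at hp'
          exact Or.inl (Or.inl (Or.inl ⟨hp, hp'⟩))
        · rw [h4, Real.norm_eq_abs] at hp'
          rcases (abs_eq (by norm_num)).mp hp' with h5 | h5
          · exact Or.inl (Or.inr ⟨hp, h5⟩)
          · exact Or.inl (Or.inl (Or.inr ⟨hp, h5⟩))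
    · rintro (((h | h) | h) | h) <;> exact h.1
  have c1 : IsClosed S₁ := isClosed_sphere.inter
    (isClosed_eq (continuous_fst.comp continuous_snd).norm continuous_const)
  have c2 : IsClosed S₂ := isClosed_sphere.inter
    (isClosed_eq (continuous_snd.comp continuous_snd) continuous_const)
  have c3 : IsClosed S₃ := isClosed_sphere.inter
    (isClosed_eq (continuous_snd.comp continuous_snd) continuous_const)
  have c4 : IsClosed S₄ := isClosed_sphere.inter
    (isClosed_eq continuous_fst.norm continuous_const)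
  rw [hcov]
  refine ContinuousOn.union_of_isClosed (ContinuousOn.union_of_isClosed
    (ContinuousOn.union_of_isClosed ?_ ?_ c1 c2) ?_ (c1.union c2) c3) ?_ ((c1.union c2).union c3) c4
  · -- `‖w‖ = 1`
    refine continuousOn_const.congr (f := fun _ => y0) ?_
    rintro p ⟨-, hp⟩
    have h4 : sg W p.2.1 = ∞ := if_neg (not_lt.mpr (le_of_eq (Eq.symm hp)))
    show hat y0 (Hc y0 f H) (qq W Φ p) = y0
    unfold qq
    rw [h4]
    rfl
  · -- `t = -1`
    have hv : VanOn y0 ((univ : Set (X × W)) ×ˢ {(0 : ℝ)}) fun q : (X × W) × ℝ => f q.1 := by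
      refine h3 (X × W) ((X × W) × ℝ) Y y0 univ _ f Prod.fst hf continuous_fst.continuousOn
        (fun _ _ => mem_univ _) ?_
      rw [hasBasis_cocompact.tendsto_right_iff]
      intro K hK
      rw [eventually_inf_principal]
      have h5 : ((K ×ˢ {(0 : ℝ)})ᶜ : Set ((X × W) × ℝ)) ∈ cocompact ((X × W) × ℝ) :=
        (hK.prod isCompact_singleton).compl_mem_cocompact
      filter_upwards [h5] with q hq hq'
      exact fun h6 => hq ⟨h6, hq'.2⟩
    have hcomp : ContinuousOn (fun p => hat y0 (fun q : (X × W) × ℝ => f q.1) (qq W Φ p)) S₂ := by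
      refine ContinuousOn.comp hv (hqc.mono (inter_subset_left.trans hsub')) ?_
      rintro p ⟨-, hp⟩
      refine qq_mem Φ _ p fun w => ⟨mem_univ _, ?_⟩
      have hp' : p.2.2 = -1 := hp
      show (p.2.2 + 1) / 2 = 0
      rw [hp']
      norm_num
    refine hcomp.congr ?_
    rintro p ⟨-, hp⟩
    refine hat_qq Φ y0 _ _ p fun w => ?_
    have hp' : p.2.2 = -1 := hp
    have h6 : (p.2.2 + 1) / 2 = 0 := by
      rw [hp']
      norm_num
    rw [h6]
    exact if_pos le_rfl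
  · -- `t = 1`
    refine continuousOn_const.congr (f := fun _ => y0) ?_
    rintro p ⟨-, hp⟩
    refine hat_qq_const Φ y0 _ p fun w => ?_
    have hp' : p.2.2 = 1 := hp
    have h6 : (p.2.2 + 1) / 2 = 1 := by
      rw [hp']
      norm_num
    rw [h6]
    unfold Hc
    rw [if_neg (by norm_num), if_pos (le_refl (1 : ℝ))]
  · -- `‖s‖ = 1`
    have hcomp : ContinuousOn (fun p => hat y0 H (qq W Φ p)) S₄ := by
      refine ContinuousOn.comp hH (hqc.mono (inter_subset_left.trans hsub')) ?_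
      rintro p ⟨hps, hp⟩
      have h7 := abs_le.mp (hsub p hps).2.2
      refine qq_mem Φ _ p fun w => ⟨⟨hA _ (mem_sphere_zero_iff_norm.mpr hp), mem_univ _⟩, ?_, ?_⟩
      · show 0 ≤ (p.2.2 + 1) / 2
        linarith [h7.1]
      · show (p.2.2 + 1) / 2 ≤ 1
        linarith [h7.2]
    refine hcomp.congr ?_
    rintro p ⟨hps, hp⟩
    have h7 := abs_le.mp (hsub p hps).2.2
    refine hat_qq Φ y0 _ _ p fun w => ?_
    have hmem : (Φ p.1, w) ∈ A ×ˢ (univ : Set W) :=
      ⟨hA _ (mem_sphere_zero_iff_norm.mpr hp), mem_univ _⟩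
    unfold Hc
    split_ifs with h8 h9
    · have h10 : (p.2.2 + 1) / 2 = 0 := le_antisymm h8 (by linarith [h7.1])
      rw [h10]
      exact (hH01 _ hmem).1.symm
    · have h10 : (p.2.2 + 1) / 2 = 1 := le_antisymm (by linarith [h7.2]) h9
      rw [h10]
      exact (hH01 _ hmem).2.symm
    · rfl

end Pool.Agent.Tate.Cel
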