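import Pool.Agent.Lib.Tate.Inj.Spec

/-!
# C42 (MP_071d69_gt), Inj/C0: cells of the first kind (helper25, task 12036)
-/

set_option autoImplicit false

open Set Filter Topology Metric
open scoped OnePoint

namespace Pool.Agent.Tate.Cel

namespace C0Aux

/-- the coordinate `i` of a point of the sphere -/
def co {d : ℕ} (a : Sph d) (i : Fin d) : ℝ := (a : EuclideanSpace ℝ (Fin d)) i

theorem co_neg {d : ℕ} (a : Sph d) (i : Fin d) : co (-a) i = -co a i := by
  simp [co]

theorem cont_co {d : ℕ} (i : Fin d) : Continuous fun a : Sph d => co a i := by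
  unfold co
  fun_prop

theorem mem_SJ {d j : ℕ} {x : Sph d × Circle} :
    x ∈ SJ d j ↔ ∀ i : Fin d, j ≤ (i : ℕ) → co x.1 i = 0 := Iff.rfl

theorem closed_SJ (d j : ℕ) : IsClosed (SJ d j) := by
  have h : SJ d j = ⋂ (i : Fin d) (_ : j ≤ (i : ℕ)), {x : Sph d × Circle | co x.1 i = 0} := by
    ext x
    simp [mem_SJ]
  rw [h]
  exact isClosed_iInter fun i => isClosed_iInter fun _ =>
    isClosed_eq ((cont_co i).comp continuous_fst) continuous_const

theorem inv_SJ {G : Type} [Group G] (χ : G →* ℤˣ) (ψ : G →* Circle) (d j : ℕ) (g : G)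
    (x : Sph d × Circle) (hx : x ∈ SJ d j) : ((actS χ d).prod (actZ ψ)).a g x ∈ SJ d j := by
  rw [mem_SJ] at hx ⊢
  intro i hi
  change co (if χ g = 1 then x.1 else -x.1) i = 0
  split_ifs
  · exact hx i hi
  · rw [co_neg, hx i hi, neg_zero]

end C0Aux

open C0Aux in
theorem pC0 (h1 : S_Hm) (h2 : S_Gp) : S_C0 := by
  intro G _ χ ψ hC d j hj
  obtain ⟨he, c1, c2, c3, c4, c5, c6⟩ := h1 d j hj
  replace c2 : ∀ s, ‖s‖ ≤ 1 → ∀ i : Fin d, j < (i : ℕ) → co (he s) i = 0 := c2
  replace c3 : ∀ s, ‖s‖ ≤ 1 → ∀ i : Fin j, co (he s) ⟨i, i.isLt.trans hj⟩ = s i := c3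
  replace c4 : ∀ s, ‖s‖ = 1 → co (he s) ⟨j, hj⟩ = 0 := c4
  replace c5 : ∀ s, ‖s‖ < 1 → 0 < co (he s) ⟨j, hj⟩ := c5
  replace c6 : ∀ a : Sph d, (∀ i : Fin d, j < (i : ℕ) → co a i = 0) → 0 < co a ⟨j, hj⟩ →
    ∃ s, ‖s‖ < 1 ∧ he s = a := c6
  have hact : ∀ g s, ((actS χ d).prod (actZ ψ)).a g (he s, (1 : Circle)) =
      ((if χ g = 1 then he s else -he s), ψ g * 1) := fun g s => rfl
  refine ⟨fun s => (he s, 1), closed_SJ d j, inv_SJ χ ψ d j, ?_, ?_, ?_, ?_, ?_⟩
  · exact c1.prodMk continuousOn_const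
  · intro s hs
    rw [mem_sphere_zero_iff_norm] at hs
    rw [mem_SJ]
    intro i hi
    rcases hi.eq_or_lt with h | h
    · have : i = ⟨j, hj⟩ := Fin.ext h.symm
      rw [this]
      exact c4 s hs
    · exact c2 s hs.le i h
  · intro s hs h
    rw [mem_ball_zero_iff] at hs
    rw [mem_SJ] at h
    exact (c5 s hs).ne' (h ⟨j, hj⟩ le_rfl)
  · intro g s hs s' hs' h
    rw [mem_ball_zero_iff] at hs hs'
    rw [hact, Prod.mk.injEq, mul_one] at h
    obtain ⟨e1, e2⟩ := h
    have hχ : χ g = 1 := by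
      rcases Int.units_eq_one_or (χ g) with h | h
      · exact h
      · exfalso
        rw [if_neg (by rw [h]; decide)] at e1
        have h3 := c5 s' hs'
        rw [← e1, co_neg] at h3
        have h4 := c5 s hs
        linarith
    rw [if_pos hχ] at e1
    refine ⟨hC.inj g hχ e2, ?_⟩
    ext i
    rw [← c3 s hs.le i, e1, c3 s' hs'.le i]
  · intro x
    constructor
    · rintro (h | ⟨h, h4⟩)
      · exact Or.inl h
      · rw [mem_SJ] at h
        have hne : ∀ i : Fin d, j < (i : ℕ) → co x.1 i = 0 := fun i hi => h i hi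
        rcases lt_trichotomy (co x.1 ⟨j, hj⟩) 0 with h0 | h0 | h0
        · right
          obtain ⟨g, g1, g2⟩ := h2 G χ ψ hC (-1) x.2 h4
          obtain ⟨s, s1, s2⟩ := c6 (-x.1) (fun i hi => by rw [co_neg, hne i hi, neg_zero])
            (by rw [co_neg]; linarith)
          refine ⟨g, s, mem_ball_zero_iff.2 s1, ?_⟩
          rw [hact, g1, if_neg (by decide), g2, s2, neg_neg, mul_one]
        · left
          rw [mem_SJ]
          intro i hi
          rcases hi.eq_or_lt with h' | h'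
          · have : i = ⟨j, hj⟩ := Fin.ext h'.symm
            rw [this]
            exact h0
          · exact hne i h'
        · right
          obtain ⟨g, g1, g2⟩ := h2 G χ ψ hC 1 x.2 h4
          obtain ⟨s, s1, s2⟩ := c6 x.1 hne h0
          refine ⟨g, s, mem_ball_zero_iff.2 s1, ?_⟩
          rw [hact, g1, if_pos rfl, g2, s2, mul_one]
    · rintro (h | ⟨g, s, hs, rfl⟩)
      · exact Or.inl h
      · right
        rw [mem_ball_zero_iff] at hs
        refine ⟨inv_SJ χ ψ d (j + 1) g _ ?_, ?_⟩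
        · rw [mem_SJ]
          exact fun i hi => c2 s hs.le i hi
        · rw [hact]
          change (ψ g * 1) ^ 4 = 1
          rw [mul_one]
          exact hC.four g

end Pool.Agent.Tate.Cel
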