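import Pool.Agent.Lib.Tate.Inj.Spec

/-!
# C42, block Inj: cells of the second kind (helper12)
-/

set_option autoImplicit false

open Set Filter Topology Metric
open scoped OnePoint

noncomputable section

namespace Pool.Agent.Tate.Cel

namespace C1x

theorem coord_cont {d : ℕ} (i : Fin d) :
    Continuous fun x : Sph d × Circle => (x.1 : EuclideanSpace ℝ (Fin d)) i :=
  (EuclideanSpace.proj i : EuclideanSpace ℝ (Fin d) →L[ℝ] ℝ).continuous.comp
    (continuous_subtype_val.comp continuous_fst)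

theorem closed_SJ (d j : ℕ) : IsClosed (SJ d j) := by
  have : SJ d j = ⋂ (i : Fin d) (_ : j ≤ (i : ℕ)),
      {x : Sph d × Circle | (x.1 : EuclideanSpace ℝ (Fin d)) i = 0} := by
    ext x
    simp [SJ]
  rw [this]
  exact isClosed_iInter fun i => isClosed_iInter fun _ =>
    isClosed_eq (coord_cont i) continuous_const

theorem closed_SJ' (d j : ℕ) : IsClosed (SJ' d j) := by
  refine (closed_SJ d j).union ((closed_SJ d (j + 1)).inter ?_)
  exact isClosed_eq (by fun_prop) continuous_const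

theorem act_fst {G : Type} [Group G] (χ : G →* ℤˣ) (ψ : G →* Circle) (d : ℕ) (g : G)
    (x : Sph d × Circle) (i : Fin d) :
    ((((actS χ d).prod (actZ ψ)).a g x).1 : EuclideanSpace ℝ (Fin d)) i
      = (if χ g = 1 then 1 else -1) * (x.1 : EuclideanSpace ℝ (Fin d)) i := by
  show (((if χ g = 1 then x.1 else -x.1) : Sph d) : EuclideanSpace ℝ (Fin d)) i = _
  by_cases h : χ g = 1
  · rw [if_pos h, if_pos h, one_mul]
  · rw [if_neg h, if_neg h, neg_one_mul]
    rfl

theorem act_snd {G : Type} [Group G] (χ : G →* ℤˣ) (ψ : G →* Circle) (d : ℕ) (g : G)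
    (x : Sph d × Circle) : (((actS χ d).prod (actZ ψ)).a g x).2 = ψ g * x.2 := rfl

theorem act_SJ {G : Type} [Group G] (χ : G →* ℤˣ) (ψ : G →* Circle) {d j : ℕ} (g : G)
    {x : Sph d × Circle} (hx : x ∈ SJ d j) : ((actS χ d).prod (actZ ψ)).a g x ∈ SJ d j := by
  intro i hi
  rw [act_fst, hx i hi, mul_zero]

theorem SJ_mono {d j : ℕ} {x : Sph d × Circle} (hx : x ∈ SJ d j) : x ∈ SJ d (j + 1) :=
  fun i hi => hx i (by omega)

theorem SJ'_sub {d j : ℕ} {x : Sph d × Circle} (hx : x ∈ SJ' d j) : x ∈ SJ d (j + 1) :=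
  hx.elim SJ_mono fun h => h.1

end C1x

theorem pC1 (h1 : S_Hm) (h2 : S_Gp) (h3 : S_Ar) : S_C1 := by
  intro G _ χ ψ hCh d j hj
  obtain ⟨he, e1, e2, e3, e4, e5, e6⟩ := h1 d j hj
  obtain ⟨c, c1, c2, c3, c4, c5, c6⟩ := h3
  -- points of the cell
  have hball : ∀ s : EuclideanSpace ℝ (Fin j) × ℝ, s ∈ ball (0 : EuclideanSpace ℝ (Fin j) × ℝ) 1
      ↔ ‖s.1‖ < 1 ∧ |s.2| < 1 := fun s => by
    rw [mem_ball_zero_iff, Prod.norm_def, max_lt_iff, Real.norm_eq_abs]
  have hSJ1 : ∀ s : EuclideanSpace ℝ (Fin j) × ℝ, ‖s.1‖ ≤ 1 →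
      ((he s.1, c s.2) : Sph d × Circle) ∈ SJ d (j + 1) := fun s hs i hi => e2 s.1 hs i hi
  refine ⟨fun s => (he s.1, c s.2), ?_⟩
  refine ⟨C1x.closed_SJ' d j, ?_, ?_, ?_, ?_, ?_, ?_⟩
  · rintro g x (hx | hx)
    · exact Or.inl (C1x.act_SJ χ ψ g hx)
    · refine Or.inr ⟨C1x.act_SJ χ ψ g hx.1, ?_⟩
      rw [C1x.act_snd, mul_pow, hCh.four g, hx.2, one_mul]
  · refine ContinuousOn.prodMk ?_ ?_
    · refine e1.comp continuous_fst.continuousOn fun s hs => ?_
      rw [mem_closedBall_zero_iff] at hs ⊢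
      exact (norm_fst_le s).trans hs
    · exact (c1.comp continuous_snd).continuousOn
  · intro s hs
    rw [mem_sphere_zero_iff_norm, Prod.norm_def, Real.norm_eq_abs] at hs
    have hs1 : ‖s.1‖ ≤ 1 := by rw [← hs]; exact le_max_left _ _
    rcases max_choice ‖s.1‖ |s.2| with hm | hm
    · rw [hm] at hs
      refine Or.inl fun i hi => ?_
      rcases eq_or_lt_of_le hi with h | h
      · have hij : i = ⟨j, hj⟩ := Fin.ext h.symm
        rw [hij]
        exact e4 s.1 hs
      · exact e2 s.1 hs1 i h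
    · rw [hm] at hs
      refine Or.inr ⟨hSJ1 s hs1, ?_⟩
      show c s.2 ^ 4 = 1
      rcases abs_eq (zero_le_one' ℝ) |>.1 hs with h | h
      · rw [h]; exact c3
      · rw [h]; exact c2
  · intro s hs
    obtain ⟨hs1, hs2⟩ := (hball s).1 hs
    rintro (hx | hx)
    · have := hx ⟨j, hj⟩ le_rfl
      have h' := e5 s.1 hs1
      rw [show (he s.1 : EuclideanSpace ℝ (Fin d)) ⟨j, hj⟩ = 0 from this] at h'
      exact lt_irrefl _ h'
    · exact c4 s.2 hs2 hx.2
  · intro g s hs s' hs' h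
    obtain ⟨hs1, hs2⟩ := (hball s).1 hs
    obtain ⟨hs1', hs2'⟩ := (hball s').1 hs'
    have hf : ∀ i : Fin d, (if χ g = 1 then (1 : ℝ) else -1) * (he s.1 : EuclideanSpace ℝ (Fin d)) i
        = (he s'.1 : EuclideanSpace ℝ (Fin d)) i := fun i => by
      rw [← C1x.act_fst χ ψ d g ((he s.1, c s.2) : Sph d × Circle) i, h]
    have hχ : χ g = 1 := by
      by_contra hne
      have h' := hf ⟨j, hj⟩
      rw [if_neg hne] at h'
      have a1 := e5 s.1 hs1
      have a2 := e5 s'.1 hs1'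
      linarith
    have hs' : s.1 = s'.1 := by
      ext i
      have h' := hf ⟨i, i.isLt.trans hj⟩
      rw [if_pos hχ, one_mul, e3 s.1 hs1.le i, e3 s'.1 hs1'.le i] at h'
      exact h'
    have hsnd : ψ g * c s.2 = c s'.2 := by
      have := congrArg Prod.snd h
      exact this
    have ht : s.2 = s'.2 := by
      refine c5 s.2 s'.2 hs2 hs2' ?_
      rw [← hsnd, mul_pow, hCh.four g, one_mul]
    have hψ : ψ g = 1 := by
      rw [← ht] at hsnd
      exact mul_eq_right.1 hsnd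
    exact ⟨hCh.inj g hχ hψ, Prod.ext hs' ht⟩
  · intro x
    constructor
    · intro hx
      by_cases ha : (x.1 : EuclideanSpace ℝ (Fin d)) ⟨j, hj⟩ = 0
      · left; left
        intro i hi
        rcases eq_or_lt_of_le hi with h | h
        · have hij : i = ⟨j, hj⟩ := Fin.ext h.symm
          rw [hij]; exact ha
        · exact hx i h
      by_cases hz : x.2 ^ 4 = 1
      · exact Or.inl (Or.inr ⟨hx, hz⟩)
      right
      obtain ⟨t, ht, ht'⟩ := c6 x.2 hz
      rcases lt_or_gt_of_ne ha with hlt | hgt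
      · obtain ⟨g, hg, hg'⟩ := h2 G χ ψ hCh (-1) (x.2 / c t) ht'
        obtain ⟨s, hs, hs'⟩ := e6 (-x.1) (fun i hi => by
          show -(x.1 : EuclideanSpace ℝ (Fin d)) i = 0
          rw [hx i hi, neg_zero]) (by
          show 0 < -(x.1 : EuclideanSpace ℝ (Fin d)) ⟨j, hj⟩
          linarith)
        refine ⟨g, (s, t), (hball _).2 ⟨hs, ht⟩, ?_⟩
        refine Prod.ext ?_ ?_
        · show (if χ g = 1 then he s else -he s) = x.1
          rw [hg, if_neg (by decide), hs', neg_neg]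
        · show ψ g * c t = x.2
          rw [hg', div_mul_cancel]
      · obtain ⟨g, hg, hg'⟩ := h2 G χ ψ hCh 1 (x.2 / c t) ht'
        obtain ⟨s, hs, hs'⟩ := e6 x.1 (fun i hi => hx i hi) hgt
        refine ⟨g, (s, t), (hball _).2 ⟨hs, ht⟩, ?_⟩
        refine Prod.ext ?_ ?_
        · show (if χ g = 1 then he s else -he s) = x.1
          rw [hg, if_pos rfl, hs']
        · show ψ g * c t = x.2
          rw [hg', div_mul_cancel]
    · rintro (hx | ⟨g, s, hs, rfl⟩)
      · exact C1x.SJ'_sub hx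
      · exact C1x.act_SJ χ ψ g (hSJ1 s ((hball s).1 hs).1.le)

end Pool.Agent.Tate.Cel
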