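import Pool.Agent.Lib.Tate.Inj.Spec

set_option autoImplicit false

open Set Filter Topology Metric
open scoped OnePoint

noncomputable section

namespace Pool.Agent.Tate.Cel

namespace ClAux

/-- The action as homeomorphisms. -/
def ho {G : Type} [Group G] {Z : Type} [TopologicalSpace Z] (α : Act G Z) (g : G) : Z ≃ₜ Z where
  toFun := α.a g
  invFun := α.a g⁻¹
  left_inv z := by rw [← α.mul, inv_mul_cancel, α.one]
  right_inv z := by rw [← α.mul, mul_inv_cancel, α.one]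
  continuous_toFun := α.cont g
  continuous_invFun := α.cont g⁻¹

theorem ho_apply {G : Type} [Group G] {Z : Type} [TopologicalSpace Z] (α : Act G Z) (g : G) (z : Z) :
    ho α g z = α.a g z := rfl

theorem inv_a {G : Type} [Group G] {Z : Type} [TopologicalSpace Z] (α : Act G Z) (g : G) (z : Z) :
    α.a g⁻¹ (α.a g z) = z := (ho α g).left_inv z

theorem a_inv {G : Type} [Group G] {Z : Type} [TopologicalSpace Z] (α : Act G Z) (g : G) (z : Z) :
    α.a g (α.a g⁻¹ z) = z := (ho α g).right_inv z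

section
set_option linter.unusedSectionVars false
variable {G : Type} [Group G] {X E W Y : Type} [TopologicalSpace X]
  [NormedAddCommGroup E] [NormedSpace ℝ E]
  [NormedAddCommGroup W] [NormedSpace ℝ W] [TopologicalSpace Y]
  {α : Act G X} (ω : Act G W) (β : Act G Y) (y0 : Y) {A B : Set X} {Φ : E → X}

open Classical in
/-- The new homotopy. -/
def H' (α : Act G X) (A : Set X) (Φ : E → X) (H : (X × W) × ℝ → Y) (e : E × W × ℝ → Y) :
    (X × W) × ℝ → Y := fun q =>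
  if q.1.1 ∈ A then H q else
    if h : ∃ p : G × E, p.2 ∈ ball (0 : E) 1 ∧ α.a p.1 (Φ p.2) = q.1.1 then
      β.a h.choose.1 (e (h.choose.2, (1 + ‖ω.a h.choose.1⁻¹ q.1.2‖)⁻¹ • ω.a h.choose.1⁻¹ q.1.2,
        2 * q.2 - 1))
    else y0

theorem notA (hC : Cell α A B Φ) (g : G) {s : E} (hs : s ∈ ball (0 : E) 1) : α.a g (Φ s) ∉ A := by
  intro h
  apply hC.nA s hs
  have := hC.inv g⁻¹ _ h
  rwa [inv_a] at this

theorem H'_cell (hC : Cell α A B Φ) (H : (X × W) × ℝ → Y) (e : E × W × ℝ → Y) (g : G) {s : E}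
    (hs : s ∈ ball (0 : E) 1) (v : W) (τ : ℝ) :
    H' ω β y0 α A Φ H e ((α.a g (Φ s), v), τ) =
      β.a g (e (s, (1 + ‖ω.a g⁻¹ v‖)⁻¹ • ω.a g⁻¹ v, 2 * τ - 1)) := by
  have h : ∃ p : G × E, p.2 ∈ ball (0 : E) 1 ∧ α.a p.1 (Φ p.2) = α.a g (Φ s) := ⟨(g, s), hs, rfl⟩
  have h1 : h.choose = (g, s) := by
    obtain ⟨h2, h3⟩ := h.choose_spec
    have h4 : α.a (g⁻¹ * h.choose.1) (Φ h.choose.2) = Φ s := by
      rw [α.mul, h3, inv_a]
    obtain ⟨h5, h6⟩ := hC.free _ _ h2 _ hs h4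
    ext1
    · exact (inv_mul_eq_one.1 h5).symm
    · exact h6
  unfold H'
  simp only
  rw [if_neg (notA hC g hs), dif_pos h, h1]

theorem H'_A (H : (X × W) × ℝ → Y) (e : E × W × ℝ → Y) {q : (X × W) × ℝ} (hq : q.1.1 ∈ A) :
    H' ω β y0 α A Φ H e q = H q := by
  unfold H'
  rw [if_pos hq]

theorem VanOn.mono {Z : Type} [TopologicalSpace Z] {y0 : Y} {C D : Set Z} {h : Z → Y}
    (hV : VanOn y0 D h) (hCD : C ⊆ D) : VanOn y0 C h := by
  unfold VanOn at *
  exact ContinuousOn.mono hV (insert_subset_insert (image_mono hCD))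

theorem VanOn.congr {Z : Type} [TopologicalSpace Z] {y0 : Y} {C : Set Z} {h h' : Z → Y}
    (hV : VanOn y0 C h) (hh : ∀ z ∈ C, h' z = h z) : VanOn y0 C h' := by
  unfold VanOn at *
  refine ContinuousOn.congr hV ?_
  rintro p (rfl | ⟨z, hz, rfl⟩)
  · rfl
  · exact hh z hz

end

end ClAux

open ClAux in
theorem pCl (h1 : S_Un) (h2 : S_Qt) (h3 : S_Sg) (h4 : S_Qc) (h5 : S_Bd) : S_Cl := by
  intro G _ _ X E W Y _ _ _ _ _ _ _ _ _ _ α ω β y0 A B Φ f hy0 hC hfV hfE hext hnull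
  obtain ⟨H, hV, hval, heq⟩ := hnull
  -- boundary values
  have hb := h5 X E W Y y0 A Φ f H hC.cont hC.bd hfV hV hval
  have hfr : Module.finrank ℝ (E × W × ℝ) = Module.finrank ℝ E + Module.finrank ℝ W + 1 := by
    simp [Module.finrank_prod]
    ring
  obtain ⟨e, he, heb⟩ := hext (E × W × ℝ) hfr _ hb
  obtain ⟨hs1, hs2, hs3⟩ := h3 W
  -- points of the sphere
  have hball : ∀ p : E × W × ℝ, p ∈ closedBall (0 : E × W × ℝ) 1 ↔ ‖p.1‖ ≤ 1 ∧ ‖p.2.1‖ ≤ 1 ∧ |p.2.2| ≤ 1 := by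
    intro p
    simp [Prod.norm_def]
  have hsph : ∀ p : E × W × ℝ, p ∈ closedBall (0 : E × W × ℝ) 1 →
      (‖p.1‖ = 1 ∨ ‖p.2.1‖ = 1 ∨ |p.2.2| = 1) → p ∈ sphere (0 : E × W × ℝ) 1 := by
    intro p hp hor
    rw [mem_sphere_zero_iff_norm]
    apply le_antisymm (mem_closedBall_zero_iff.1 hp)
    rw [Prod.norm_def, Prod.norm_def, Real.norm_eq_abs]
    rcases hor with h | h | h
    · rw [h]; exact le_max_left _ _
    · rw [h]; exact le_max_of_le_right (le_max_left _ _)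
    · rw [h]; exact le_max_of_le_right (le_max_right _ _)
  have hHc : ∀ z ∈ A ×ˢ (univ : Set W), ∀ t ∈ Icc (0 : ℝ) 1, Hc y0 f H (z, t) = H (z, t) := by
    intro z hz t ht
    unfold Hc
    simp only
    split_ifs with h h'
    · have : t = 0 := le_antisymm h ht.1
      rw [this, (hval z hz).1]
    · have : t = 1 := le_antisymm ht.2 h'
      rw [this, (hval z hz).2]
    · rfl
  have hqq : ∀ (p : E × W × ℝ) (v : W), sg W p.2.1 = v → qq W Φ p =
      ((((Φ p.1, v), (p.2.2 + 1) / 2) : (X × W) × ℝ) : OnePoint ((X × W) × ℝ)) := by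
    intro p v hv
    unfold qq
    rw [hv]
    rfl
  -- the norm of the new vector
  have hnorm : ∀ v : W, ‖(1 + ‖v‖)⁻¹ • v‖ < 1 := fun v => (hs2 v).1
  -- value at times 0 and 1 on the cell
  have hv0 : ∀ (s : E) (v : W), s ∈ ball (0 : E) 1 → e (s, (1 + ‖v‖)⁻¹ • v, 2 * 0 - 1) = f (Φ s, v) := by
    intro s v hs
    have hp : ((s, (1 + ‖v‖)⁻¹ • v, 2 * 0 - 1) : E × W × ℝ) ∈ sphere (0 : E × W × ℝ) 1 := by
      apply hsph
      · rw [hball]
        exact ⟨(mem_ball_zero_iff.1 hs).le, (hnorm v).le, by norm_num⟩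
      · right; right; norm_num
    rw [heb _ hp, hqq _ v (hs2 v).2]
    simp [hat, Hc]
  have hv1 : ∀ (s : E) (v : W), s ∈ ball (0 : E) 1 → e (s, (1 + ‖v‖)⁻¹ • v, 2 * 1 - 1) = y0 := by
    intro s v hs
    have hp : ((s, (1 + ‖v‖)⁻¹ • v, 2 * 1 - 1) : E × W × ℝ) ∈ sphere (0 : E × W × ℝ) 1 := by
      apply hsph
      · rw [hball]
        exact ⟨(mem_ball_zero_iff.1 hs).le, (hnorm v).le, by norm_num⟩
      · right; right; norm_num
    rw [heb _ hp, hqq _ v (hs2 v).2]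
    simp only [hat, Hc, OnePoint.elim_some]
    rw [if_neg (by norm_num), if_pos (by norm_num)]
  refine ⟨H' ω β y0 α A Φ H e, ?_, ?_, ?_⟩
  · -- continuity
    have hA : VanOn y0 ((A ×ˢ (univ : Set W)) ×ˢ Icc (0 : ℝ) 1) (H' ω β y0 α A Φ H e) := by
      refine VanOn.congr hV ?_
      rintro q ⟨⟨hq, -⟩, -⟩
      exact H'_A ω β y0 H e hq
    let C : G → Set ((X × W) × ℝ) := fun g =>
      ((α.a g '' (Φ '' closedBall 0 1)) ×ˢ (univ : Set W)) ×ˢ Icc (0 : ℝ) 1
    have hCcl : ∀ g, IsClosed (C g) := by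
      intro g
      refine IsClosed.prod (IsClosed.prod ?_ isClosed_univ) isClosed_Icc
      have hc1 : IsCompact (Φ '' closedBall 0 1) :=
        (isCompact_closedBall (0 : E) 1).image_of_continuousOn hC.cont
      exact (hc1.image (α.cont g)).isClosed
    have hCV : ∀ g, VanOn y0 (C g) (H' ω β y0 α A Φ H e) := by
      intro g
      let hg : (X × W) × ℝ ≃ₜ (X × W) × ℝ :=
        ((ho α g).prodCongr (ho ω g)).prodCongr (Homeomorph.refl ℝ)
      have hgap : ∀ z : (X × W) × ℝ, hg z = ((α.a g z.1.1, ω.a g z.1.2), z.2) := fun z => rfl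
      let P : Type := closedBall (0 : E × W × ℝ) 1
      have : CompactSpace P := isCompact_iff_compactSpace.1 (isCompact_closedBall _ _)
      let q : P → OnePoint ((X × W) × ℝ) := fun p => hg.onePointCongr (qq W Φ p.1)
      have hqc : Continuous fun p : P => qq W Φ p.1 := by
        have h := h4 X E W Φ hC.cont
        refine h.comp_continuous continuous_subtype_val ?_
        intro p
        exact ⟨mem_closedBall_zero_iff.2 ((hball _).1 p.2).1, mem_univ _⟩
      refine h2 P ((X × W) × ℝ) Y y0 q (fun p => β.a g (e p.1)) (C g) _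
        (hg.onePointCongr.continuous.comp hqc) ((β.cont g).comp (he.comp_continuous
          continuous_subtype_val fun p => p.2)) ?_ ?_ ?_
      · intro p hp
        have hp1 : qq W Φ p.1 = ∞ := by
          apply hg.onePointCongr.injective
          rw [show hg.onePointCongr (qq W Φ p.1) = ∞ from hp]
          rfl
        have hp2 : ¬ ‖p.1.2.1‖ < 1 := by
          intro hlt
          rw [hqq p.1 ((1 - ‖p.1.2.1‖)⁻¹ • p.1.2.1) (by simp [sg, hlt])] at hp1
          exact OnePoint.coe_ne_infty _ hp1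
        have hp3 : ‖p.1.2.1‖ = 1 := le_antisymm ((hball _).1 p.2).2.1 (not_lt.1 hp2)
        have hp4 := hsph p.1 p.2 (Or.inr (Or.inl hp3))
        show β.a g (e p.1) = y0
        rw [heb _ hp4, hp1]
        exact hy0 g
      · intro p z hz
        have hp5 : ∃ w : W, sg W p.1.2.1 = w := by
          cases hsg : sg W p.1.2.1 using OnePoint.rec with
          | infty =>
            exfalso
            have : q p = ∞ := by
              show hg.onePointCongr (qq W Φ p.1) = ∞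
              rw [show qq W Φ p.1 = ∞ by unfold qq; rw [hsg]; rfl]
              rfl
            rw [this] at hz
            exact OnePoint.infty_ne_coe _ hz
          | coe w => exact ⟨w, rfl⟩
        obtain ⟨w, hw⟩ := hp5
        have hz1 : z = ((α.a g (Φ p.1.1), ω.a g w), (p.1.2.2 + 1) / 2) := by
          have : q p = ((hg ((Φ p.1.1, w), (p.1.2.2 + 1) / 2) : (X × W) × ℝ) : OnePoint _) := by
            show hg.onePointCongr (qq W Φ p.1) = _
            rw [hqq p.1 w hw]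
            rfl
          rw [this] at hz
          exact (OnePoint.coe_injective hz).symm
        have hpw := hs3 _ _ hw
        have hpt := (hball _).1 p.2
        rw [hz1]
        by_cases hsb : ‖p.1.1‖ < 1
        · rw [H'_cell ω β y0 hC H e g (mem_ball_zero_iff.2 hsb), inv_a, ← hpw]
          congr 2
          rw [show 2 * ((p.1.2.2 + 1) / 2) - 1 = p.1.2.2 by ring]
        · have hs1' : ‖p.1.1‖ = 1 := le_antisymm hpt.1 (not_lt.1 hsb)
          have hΦA : Φ p.1.1 ∈ A := hC.bd _ (mem_sphere_zero_iff_norm.2 hs1')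
          have ht : (p.1.2.2 + 1) / 2 ∈ Icc (0 : ℝ) 1 := by
            have := abs_le.1 hpt.2.2
            constructor <;> linarith [this.1, this.2]
          rw [H'_A ω β y0 H e (hC.inv g _ hΦA)]
          have := heq g (Φ p.1.1, w) ⟨hΦA, mem_univ _⟩ _ ht
          rw [show H ((α.a g (Φ p.1.1), ω.a g w), (p.1.2.2 + 1) / 2) =
            H ((α.prod ω).a g (Φ p.1.1, w), (p.1.2.2 + 1) / 2) from rfl, this]
          rw [heb _ (hsph p.1 p.2 (Or.inl hs1')), hqq p.1 w hw]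
          simp only [hat, OnePoint.elim_some]
          rw [hHc _ ⟨hΦA, mem_univ _⟩ _ ht]
      · rintro ⟨⟨x, v⟩, τ⟩ ⟨⟨⟨x', ⟨s, hs, rfl⟩, rfl⟩, -⟩, hτ⟩
        have hmem : ((s, (1 + ‖ω.a g⁻¹ v‖)⁻¹ • ω.a g⁻¹ v, 2 * τ - 1) : E × W × ℝ) ∈
            closedBall (0 : E × W × ℝ) 1 := by
          rw [hball]
          refine ⟨mem_closedBall_zero_iff.1 hs, (hnorm _).le, ?_⟩
          rw [abs_le]
          simp only
          have h1 := hτ.1
          have h2 := hτ.2
          simp only at h1 h2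
          constructor <;> linarith
        refine ⟨⟨_, hmem⟩, ?_⟩
        show hg.onePointCongr (qq W Φ _) = _
        rw [hqq _ (ω.a g⁻¹ v) (hs2 _).2]
        have hfin : hg ((Φ s, ω.a g⁻¹ v), (2 * τ - 1 + 1) / 2) = ((α.a g (Φ s), v), τ) := by
          rw [hgap]
          simp only [a_inv]
          rw [show (2 * τ - 1 + 1) / 2 = τ by ring]
        show ((hg ((Φ s, ω.a g⁻¹ v), (2 * τ - 1 + 1) / 2) : (X × W) × ℝ) :
          OnePoint ((X × W) × ℝ)) = _
        rw [hfin]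
    have hall := (h1.1 _ _ y0 _ (⋃ g, C g) (H' ω β y0 α A Φ H e) ((hC.clA.prod isClosed_univ).prod isClosed_Icc)
      (isClosed_iUnion_of_finite hCcl) hA (h1.2 G _ _ y0 C _ hCcl hCV))
    refine VanOn.mono hall ?_
    rintro ⟨⟨x, w⟩, t⟩ ⟨⟨hx, -⟩, ht⟩
    rcases (hC.cover x).1 hx with hxA | ⟨g, s, hs, rfl⟩
    · left
      exact ⟨⟨hxA, mem_univ _⟩, ht⟩
    · right
      rw [mem_iUnion]
      exact ⟨g, ⟨⟨⟨Φ s, ⟨s, ball_subset_closedBall hs, rfl⟩, rfl⟩, mem_univ _⟩, ht⟩⟩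
  · rintro ⟨x, w⟩ ⟨hx, -⟩
    rcases (hC.cover x).1 hx with hxA | ⟨g, s, hs, rfl⟩
    · rw [H'_A ω β y0 H e (q := ((x, w), 0)) hxA, H'_A ω β y0 H e (q := ((x, w), 1)) hxA]
      exact hval (x, w) ⟨hxA, mem_univ _⟩
    · rw [H'_cell ω β y0 hC H e g hs, H'_cell ω β y0 hC H e g hs, hv0 _ _ hs, hv1 _ _ hs]
      refine ⟨?_, hy0 g⟩
      have := hfE g (Φ s, ω.a g⁻¹ w)
      rw [← this]
      show f (α.a g (Φ s), ω.a g (ω.a g⁻¹ w)) = _
      rw [a_inv]
  · rintro g ⟨x, w⟩ ⟨hx, -⟩ t ht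
    show H' ω β y0 α A Φ H e ((α.a g x, ω.a g w), t) = _
    rcases (hC.cover x).1 hx with hxA | ⟨g', s, hs, rfl⟩
    · rw [H'_A ω β y0 H e (q := ((x, w), t)) hxA,
        H'_A ω β y0 H e (q := ((α.a g x, ω.a g w), t)) (hC.inv g x hxA)]
      exact heq g (x, w) ⟨hxA, mem_univ _⟩ t ht
    · rw [← α.mul, H'_cell ω β y0 hC H e _ hs, H'_cell ω β y0 hC H e g' hs]
      have : ω.a (g * g')⁻¹ (ω.a g w) = ω.a g'⁻¹ w := by
        rw [← ω.mul]
        congr 1
        group
      rw [this, β.mul]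

end Pool.Agent.Tate.Cel
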