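import Pool.Agent.Lib.Tate.Inj.Spec

/-!
# C42, block Inj: S_Cm (inserting the null homotopy)
-/

set_option autoImplicit false

open Set Filter Topology Metric
open scoped OnePoint

noncomputable section

namespace Pool.Agent.Tate.Cel

namespace CmAux

theorem tend {Z Z' : Type} [TopologicalSpace Z] [TopologicalSpace Z'] (k : Z' → Z) (D : Set Z')
    (N : Z → ℝ) (N' : Z' → ℝ) (hN : Continuous N)
    (hN' : ∀ R : ℝ, ∃ K : Set Z', IsCompact K ∧ ∀ z ∈ D, N' z ≤ R → z ∈ K)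
    (hc : ∀ z ∈ D, N' z ≤ N (k z) + 1) : Tendsto k (cocompact Z' ⊓ 𝓟 D) (cocompact Z) := by
  intro s hs
  obtain ⟨t, ht, hts⟩ := mem_cocompact.1 hs
  obtain ⟨R, hR⟩ := (ht.image hN).bddAbove
  obtain ⟨K, hK, hKD⟩ := hN' (R + 1)
  rw [mem_map, mem_inf_principal, mem_cocompact]
  refine ⟨K, hK, fun z hz hzD => ?_⟩
  by_contra hks
  have hkt : k z ∈ t := by
    by_contra h
    exact hks (hts h)
  have h1 : N (k z) ≤ R := hR ⟨k z, hkt, rfl⟩
  exact hz (hKD z hzD (by linarith [hc z hzD]))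

theorem van_congr {Z Y : Type} [TopologicalSpace Z] [TopologicalSpace Y] {y0 : Y} {C : Set Z}
    {h h' : Z → Y} (H : VanOn y0 C h) (he : ∀ z ∈ C, h' z = h z) : VanOn y0 C h' := by
  unfold VanOn at H ⊢
  refine H.congr ?_
  rintro p (rfl | ⟨z, hz, rfl⟩)
  · rfl
  · exact he z hz

/-- `κ` -/
def ka (z : ℂ) : ℂ := ((1 - (max 1 ‖z‖)⁻¹ : ℝ) : ℂ) * z

theorem max_pos (z : ℂ) : (0 : ℝ) < max 1 ‖z‖ := lt_of_lt_of_le one_pos (le_max_left _ _)

theorem ka_cont : Continuous ka := by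
  unfold ka
  refine Continuous.mul ?_ continuous_id
  refine Complex.continuous_ofReal.comp (continuous_const.sub ?_)
  exact (continuous_const.max continuous_norm).inv₀ (fun z => (max_pos z).ne')

theorem ka_zero {z : ℂ} (hz : ‖z‖ ≤ 1) : ka z = 0 := by
  unfold ka
  rw [max_eq_left hz]
  simp

theorem ka_mul (ξ z : ℂ) (hξ : ‖ξ‖ = 1) : ka (ξ * z) = ξ * ka z := by
  unfold ka
  rw [norm_mul, hξ, one_mul]
  ring

/-- the homotopy -/
def kt (t : ℝ) (z : ℂ) : ℂ := ((1 - t : ℝ) : ℂ) * z + (t : ℂ) * ka z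

theorem kt_cont : Continuous (fun p : ℝ × ℂ => kt p.1 p.2) := by
  unfold kt
  have h1 : Continuous (fun p : ℝ × ℂ => ((1 - p.1 : ℝ) : ℂ)) :=
    Complex.continuous_ofReal.comp (continuous_const.sub continuous_fst)
  have h2 : Continuous (fun p : ℝ × ℂ => (p.1 : ℂ)) := Complex.continuous_ofReal.comp continuous_fst
  exact (h1.mul continuous_snd).add (h2.mul (ka_cont.comp continuous_snd))

theorem kt_zero (z : ℂ) : kt 0 z = z := by simp [kt]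

theorem kt_one (z : ℂ) : kt 1 z = ka z := by simp [kt]

theorem kt_mul (t : ℝ) (ξ z : ℂ) (hξ : ‖ξ‖ = 1) : kt t (ξ * z) = ξ * kt t z := by
  unfold kt
  rw [ka_mul ξ z hξ]
  ring

theorem kt_norm {t : ℝ} (ht : t ∈ Icc (0 : ℝ) 1) (z : ℂ) : ‖z‖ ≤ ‖kt t z‖ + 1 := by
  have h0 : z = kt t z + ((t * (max 1 ‖z‖)⁻¹ : ℝ) : ℂ) * z := by
    unfold kt ka
    push_cast
    ring
  have h1 : ‖((t * (max 1 ‖z‖)⁻¹ : ℝ) : ℂ) * z‖ ≤ 1 := by
    rw [norm_mul, Complex.norm_real, Real.norm_eq_abs,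
      abs_of_nonneg (mul_nonneg ht.1 (inv_nonneg.2 (max_pos z).le))]
    have h2 : t * (max 1 ‖z‖)⁻¹ * ‖z‖ = t * (‖z‖ / max 1 ‖z‖) := by
      rw [div_eq_mul_inv]; ring
    rw [h2]
    have h3 : ‖z‖ / max 1 ‖z‖ ≤ 1 := (div_le_one (max_pos z)).2 (le_max_right _ _)
    have h4 : 0 ≤ ‖z‖ / max 1 ‖z‖ := div_nonneg (norm_nonneg _) (max_pos z).le
    calc t * (‖z‖ / max 1 ‖z‖) ≤ 1 * 1 := mul_le_mul ht.2 h3 h4 zero_le_one
      _ = 1 := one_mul 1
  calc ‖z‖ = ‖kt t z + ((t * (max 1 ‖z‖)⁻¹ : ℝ) : ℂ) * z‖ := by rw [← h0]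
    _ ≤ ‖kt t z‖ + ‖((t * (max 1 ‖z‖)⁻¹ : ℝ) : ℂ) * z‖ := norm_add_le _ _
    _ ≤ ‖kt t z‖ + 1 := by linarith

section

variable {X U : Type} [TopologicalSpace X] [CompactSpace X] [T2Space X] [NormedAddCommGroup U]
  [NormedSpace ℝ U] [FiniteDimensional ℝ U]

theorem cpt1 (R : ℝ) : ∃ K : Set ((X × (U × ℂ)) × ℝ), IsCompact K ∧
    ∀ z ∈ (univ : Set (X × (U × ℂ))) ×ˢ Icc (0 : ℝ) 1, ‖z.1.2‖ ≤ R → z ∈ K := by
  haveI : ProperSpace U := FiniteDimensional.proper ℝ U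
  refine ⟨((univ : Set X) ×ˢ closedBall (0 : U × ℂ) R) ×ˢ Icc (0 : ℝ) 1,
    (isCompact_univ.prod (isCompact_closedBall _ _)).prod isCompact_Icc, ?_⟩
  rintro ⟨⟨x, v⟩, t⟩ ⟨-, ht⟩ hv
  refine ⟨⟨mem_univ _, ?_⟩, ht⟩
  simpa using hv

theorem cpt0 (R : ℝ) : ∃ K : Set (X × (U × ℂ)), IsCompact K ∧
    ∀ z ∈ (univ : Set (X × (U × ℂ))), ‖z.2‖ ≤ R → z ∈ K := by
  haveI : ProperSpace U := FiniteDimensional.proper ℝ U
  refine ⟨(univ : Set X) ×ˢ closedBall (0 : U × ℂ) R,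
    isCompact_univ.prod (isCompact_closedBall _ _), ?_⟩
  rintro ⟨x, v⟩ - hv
  refine ⟨mem_univ _, ?_⟩
  simpa using hv

end

end CmAux

open CmAux in
theorem pCm (h1 : S_Ha) (h2 : S_Un) (h3 : S_Co) (h4 : S_Ct) : S_Cm := by
  intro G _ ψ X U Y _ _ _ _ _ _ _ α ω β y0 f hy0 hf hfe hnull
  obtain ⟨h, hh, hh01, hhe⟩ := hnull
  haveI : ProperSpace U := FiniteDimensional.proper ℝ U
  have hψ : ∀ g, ‖(ψ g : ℂ)‖ = 1 := fun g => Circle.norm_coe _
  -- the first homotopy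
  have hH1v : VanOn y0 ((univ : Set (X × (U × ℂ))) ×ˢ Icc (0 : ℝ) 1)
      (fun p : (X × (U × ℂ)) × ℝ => f (p.1.1, (p.1.2.1, kt p.2 p.1.2.2))) := by
    have hk : Continuous (fun p : (X × (U × ℂ)) × ℝ =>
        ((p.1.1, (p.1.2.1, kt p.2 p.1.2.2)) : X × (U × ℂ))) := by
      have hk1 : Continuous (fun p : (X × (U × ℂ)) × ℝ => kt p.2 p.1.2.2) :=
        kt_cont.comp (continuous_snd.prodMk (continuous_snd.comp (continuous_snd.comp continuous_fst)))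
      exact (continuous_fst.comp continuous_fst).prodMk
        ((continuous_fst.comp (continuous_snd.comp continuous_fst)).prodMk hk1)
    refine h3 _ _ _ y0 univ _ f (fun p : (X × (U × ℂ)) × ℝ =>
      ((p.1.1, (p.1.2.1, kt p.2 p.1.2.2)) : X × (U × ℂ))) hf hk.continuousOn
      (fun _ _ => mem_univ _) ?_
    refine tend _ _ (fun z => ‖z.2‖) (fun z => ‖z.1.2‖) continuous_snd.norm cpt1 ?_
    rintro ⟨⟨x, u, z⟩, t⟩ ⟨-, ht⟩
    show ‖(u, z)‖ ≤ ‖(u, kt t z)‖ + 1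
    rw [Prod.norm_def, Prod.norm_def]
    refine max_le ?_ ?_
    · have := le_max_left ‖u‖ ‖kt t z‖
      show ‖u‖ ≤ max ‖u‖ ‖kt t z‖ + 1
      linarith
    · have := le_max_right ‖u‖ ‖kt t z‖
      have h5 := kt_norm ht z
      show ‖z‖ ≤ max ‖u‖ ‖kt t z‖ + 1
      linarith
  -- the second homotopy
  set H2 : (X × (U × ℂ)) × ℝ → Y := fun p =>
    if ‖p.1.2.2‖ ≤ 1 then h ((p.1.1, p.1.2.1), p.2 * (1 - ‖p.1.2.2‖))
    else f (p.1.1, (p.1.2.1, ka p.1.2.2)) with hH2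
  set D1 : Set ((X × (U × ℂ)) × ℝ) := {p | ‖p.1.2.2‖ ≤ 1 ∧ p.2 ∈ Icc (0 : ℝ) 1} with hD1
  set D2 : Set ((X × (U × ℂ)) × ℝ) := {p | 1 ≤ ‖p.1.2.2‖ ∧ p.2 ∈ Icc (0 : ℝ) 1} with hD2
  have hnc : Continuous (fun p : (X × (U × ℂ)) × ℝ => ‖p.1.2.2‖) :=
    (continuous_snd.comp (continuous_snd.comp continuous_fst)).norm
  have hD1c : IsClosed D1 :=
    (isClosed_le hnc continuous_const).inter (isClosed_Icc.preimage continuous_snd)
  have hD2c : IsClosed D2 :=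
    (isClosed_le continuous_const hnc).inter (isClosed_Icc.preimage continuous_snd)
  have hDD : D1 ∪ D2 = (univ : Set (X × (U × ℂ))) ×ˢ Icc (0 : ℝ) 1 := by
    ext p
    constructor
    · rintro (hp | hp)
      · exact ⟨mem_univ _, hp.2⟩
      · exact ⟨mem_univ _, hp.2⟩
    · rintro ⟨-, hp⟩
      rcases le_total ‖p.1.2.2‖ 1 with h5 | h5
      · exact Or.inl ⟨h5, hp⟩
      · exact Or.inr ⟨h5, hp⟩
  have hin : ∀ {t r : ℝ}, t ∈ Icc (0 : ℝ) 1 → 0 ≤ r → r ≤ 1 → t * (1 - r) ∈ Icc (0 : ℝ) 1 := by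
    intro t r ht hr0 hr1
    refine ⟨mul_nonneg ht.1 (by linarith), ?_⟩
    calc t * (1 - r) ≤ 1 * 1 := mul_le_mul ht.2 (by linarith) (by linarith) zero_le_one
      _ = 1 := one_mul 1
  have hv1 : VanOn y0 D1 H2 := by
    have hk : Continuous (fun p : (X × (U × ℂ)) × ℝ =>
        (((p.1.1, p.1.2.1), p.2 * (1 - ‖p.1.2.2‖)) : (X × U) × ℝ)) :=
      ((continuous_fst.comp continuous_fst).prodMk
        (continuous_fst.comp (continuous_snd.comp continuous_fst))).prodMk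
        (continuous_snd.mul (continuous_const.sub hnc))
    refine van_congr (h := fun p => h ((p.1.1, p.1.2.1), p.2 * (1 - ‖p.1.2.2‖))) ?_ ?_
    · refine h3 _ _ _ y0 (univ ×ˢ Icc (0 : ℝ) 1) D1 h (fun p : (X × (U × ℂ)) × ℝ =>
        (((p.1.1, p.1.2.1), p.2 * (1 - ‖p.1.2.2‖)) : (X × U) × ℝ)) hh hk.continuousOn ?_ ?_
      · rintro p ⟨hp1, hp2⟩
        exact ⟨mem_univ _, hin hp2 (norm_nonneg _) hp1⟩
      · refine tend _ _ (fun z => ‖z.1.2‖) (fun z => ‖z.1.2.1‖)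
          (continuous_snd.comp continuous_fst).norm ?_ ?_
        · intro R
          refine ⟨((univ : Set X) ×ˢ (closedBall (0 : U) R ×ˢ closedBall (0 : ℂ) 1)) ×ˢ
            Icc (0 : ℝ) 1, (isCompact_univ.prod ((isCompact_closedBall _ _).prod
              (isCompact_closedBall _ _))).prod isCompact_Icc, ?_⟩
          rintro ⟨⟨x, u, z⟩, t⟩ ⟨hz, ht⟩ hu
          refine ⟨⟨mem_univ _, ?_, ?_⟩, ht⟩
          · simpa using hu
          · simpa using hz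
        · rintro p -
          show ‖p.1.2.1‖ ≤ ‖p.1.2.1‖ + 1
          linarith
    · rintro p ⟨hp1, hp2⟩
      show (if ‖p.1.2.2‖ ≤ 1 then _ else _) = _
      rw [if_pos hp1]
  have hv2 : VanOn y0 D2 H2 := by
    refine van_congr (h := fun p => f (p.1.1, (p.1.2.1, ka p.1.2.2))) ?_ ?_
    · have hk : Continuous (fun p : (X × (U × ℂ)) × ℝ =>
          ((p.1.1, (p.1.2.1, ka p.1.2.2)) : X × (U × ℂ))) :=
        (continuous_fst.comp continuous_fst).prodMk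
          ((continuous_fst.comp (continuous_snd.comp continuous_fst)).prodMk
            (ka_cont.comp (continuous_snd.comp (continuous_snd.comp continuous_fst))))
      refine h3 _ _ _ y0 univ D2 f (fun p : (X × (U × ℂ)) × ℝ =>
        ((p.1.1, (p.1.2.1, ka p.1.2.2)) : X × (U × ℂ))) hf hk.continuousOn
        (fun _ _ => mem_univ _) ?_
      refine tend _ _ (fun z => ‖z.2‖) (fun z => ‖z.1.2‖) continuous_snd.norm ?_ ?_
      · intro R
        obtain ⟨K, hK, hKD⟩ := cpt1 (X := X) (U := U) R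
        exact ⟨K, hK, fun z hz hzR => hKD z ⟨mem_univ _, hz.2⟩ hzR⟩
      · rintro ⟨⟨x, u, z⟩, t⟩ -
        show ‖(u, z)‖ ≤ ‖(u, ka z)‖ + 1
        rw [Prod.norm_def, Prod.norm_def]
        have h5 := kt_norm (t := 1) ⟨zero_le_one, le_refl 1⟩ z
        rw [kt_one] at h5
        refine max_le ?_ ?_
        · have := le_max_left ‖u‖ ‖ka z‖
          show ‖u‖ ≤ max ‖u‖ ‖ka z‖ + 1
          linarith
        · have := le_max_right ‖u‖ ‖ka z‖
          show ‖z‖ ≤ max ‖u‖ ‖ka z‖ + 1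
          linarith
    · rintro ⟨⟨x, u, z⟩, t⟩ ⟨hp1, hp2⟩
      show (if ‖z‖ ≤ 1 then h ((x, u), t * (1 - ‖z‖)) else f (x, (u, ka z))) = f (x, (u, ka z))
      split_ifs with hz
      · have hz1 : ‖z‖ = 1 := le_antisymm hz hp1
        rw [hz1, sub_self, mul_zero, ka_zero hz]
        exact (hh01 (x, u) (mem_univ _)).1
      · rfl
  have hv : VanOn y0 ((univ : Set (X × (U × ℂ))) ×ˢ Icc (0 : ℝ) 1) H2 := by
    rw [← hDD]
    exact h2.1 _ _ y0 D1 D2 H2 hD1c hD2c hv1 hv2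
  have hH2e : ∀ g z, ∀ t ∈ Icc (0 : ℝ) 1,
      H2 ((α.prod (ω.prod (actC ψ))).a g z, t) = β.a g (H2 (z, t)) := by
    rintro g ⟨x, u, z⟩ t ht
    show (if ‖(ψ g : ℂ) * z‖ ≤ 1 then h ((α.a g x, ω.a g u), t * (1 - ‖(ψ g : ℂ) * z‖))
      else f (α.a g x, (ω.a g u, ka ((ψ g : ℂ) * z)))) =
      β.a g (if ‖z‖ ≤ 1 then h ((x, u), t * (1 - ‖z‖)) else f (x, (u, ka z)))
    rw [norm_mul, hψ g, one_mul]
    split_ifs with hz
    · exact hhe g (x, u) (mem_univ _) _ (hin ht (norm_nonneg _) hz)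
    · rw [ka_mul _ _ (hψ g)]
      exact hfe g (x, (u, ka z))
  refine ⟨fun p => H2 (p, 1), ?_, ?_, ?_, ?_⟩
  · have hk : Continuous (fun p : X × (U × ℂ) => ((p, (1 : ℝ)) : (X × (U × ℂ)) × ℝ)) :=
      continuous_id.prodMk continuous_const
    refine h3 _ _ _ y0 _ univ H2 (fun p : X × (U × ℂ) => ((p, (1 : ℝ)) : (X × (U × ℂ)) × ℝ)) hv
      hk.continuousOn (fun _ _ => ⟨mem_univ _, zero_le_one, le_refl 1⟩) ?_
    refine tend _ _ (fun z => ‖z.1.2‖) (fun z => ‖z.2‖) (continuous_snd.comp continuous_fst).norm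
      cpt0 ?_
    rintro p -
    show ‖p.2‖ ≤ ‖p.2‖ + 1
    linarith
  · intro g z
    exact hH2e g z 1 ⟨zero_le_one, le_refl 1⟩
  · intro x u
    show (if ‖(0 : ℂ)‖ ≤ 1 then h ((x, u), 1 * (1 - ‖(0 : ℂ)‖)) else f (x, (u, ka 0))) = y0
    rw [norm_zero, if_pos zero_le_one, sub_zero, one_mul]
    exact (hh01 (x, u) (mem_univ _)).2
  · refine (h4 G (X × (U × ℂ)) Y (α.prod (ω.prod (actC ψ))) β y0 f
      (fun p => f (p.1, (p.2.1, ka p.2.2))) (fun p => H2 (p, 1)) ?_).1 ?_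
    · refine ⟨_, hH1v, ?_, ?_⟩
      · rintro ⟨x, u, z⟩
        constructor
        · show f (x, (u, kt 0 z)) = f (x, (u, z))
          rw [kt_zero]
        · show f (x, (u, kt 1 z)) = f (x, (u, ka z))
          rw [kt_one]
      · rintro g ⟨x, u, z⟩ t ht
        show f (α.a g x, (ω.a g u, kt t ((ψ g : ℂ) * z))) = β.a g (f (x, (u, kt t z)))
        rw [kt_mul _ _ _ (hψ g)]
        exact hfe g (x, (u, kt t z))
    · refine ⟨H2, hv, ?_, hH2e⟩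
      rintro ⟨x, u, z⟩
      refine ⟨?_, rfl⟩
      show (if ‖z‖ ≤ 1 then h ((x, u), 0 * (1 - ‖z‖)) else f (x, (u, ka z))) = f (x, (u, ka z))
      split_ifs with hz
      · rw [zero_mul, ka_zero hz]
        exact (hh01 (x, u) (mem_univ _)).1
      · rfl

end Pool.Agent.Tate.Cel
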