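import Pool.Agent.Lib.Tate.Inj.Spec

/-!
# C42, block Inj, Co: composition with a proper map
-/

set_option autoImplicit false

open Set Filter Topology Metric
open scoped OnePoint

noncomputable section

namespace Pool.Agent.Tate.Cel

theorem pCo (h1 : S_Ha) : S_Co := by
  intro Z Z' Y _ _ _ _ _ y0 C D h k hh hk hm ht
  obtain ⟨h2, h3⟩ := (h1 Z Y y0 C h).1 hh
  refine (h1 Z' Y y0 D fun z => h (k z)).2 ⟨h2.comp hk hm, ?_⟩
  refine h3.comp (tendsto_inf.2 ⟨ht, ?_⟩)
  exact (tendsto_principal_principal.2 hm).mono_left inf_le_right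

end Pool.Agent.Tate.Cel
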