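import Pool.Agent.Lib.Tate.Inj.Spec

/-!
# C42, block Inj: transitivity of homotopies
-/

set_option autoImplicit false

open Set Filter Topology Metric
open scoped OnePoint

noncomputable section

namespace Pool.Agent.Tate.Cel

namespace CtAux

theorem vanOn_congr {Z Y : Type} [TopologicalSpace Z] [TopologicalSpace Y] {y0 : Y} {C : Set Z}
    {h h' : Z → Y} (hh : VanOn y0 C h) (he : ∀ z ∈ C, h' z = h z) : VanOn y0 C h' := by
  refine ContinuousOn.congr hh ?_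
  rintro p (rfl | ⟨z, hz, rfl⟩)
  · rfl
  · exact he z hz

/-- The homeomorphism `(z, t) ↦ (z, 2 t + c)`. -/
def hom (Z : Type) [TopologicalSpace Z] (c : ℝ) : Z × ℝ ≃ₜ Z × ℝ :=
  (Homeomorph.refl Z).prodCongr
    ((Homeomorph.mulLeft₀ (2 : ℝ) two_ne_zero).trans (Homeomorph.addRight c))

theorem hom_apply {Z : Type} [TopologicalSpace Z] (c : ℝ) (q : Z × ℝ) :
    hom Z c q = (q.1, 2 * q.2 + c) := rfl

theorem vanOn_hom (h3 : S_Co) {Z Y : Type} [TopologicalSpace Z] [T2Space Z] [TopologicalSpace Y]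
    {y0 : Y} {H : Z × ℝ → Y} (hH : VanOn y0 (univ ×ˢ Icc (0 : ℝ) 1) H) (c a b : ℝ)
    (hab : ∀ t ∈ Icc a b, 2 * t + c ∈ Icc (0 : ℝ) 1) :
    VanOn y0 ((univ : Set Z) ×ˢ Icc a b) fun q => H (q.1, 2 * q.2 + c) := by
  refine h3 (Z × ℝ) (Z × ℝ) Y y0 _ _ H (hom Z c) hH (hom Z c).continuous.continuousOn
    (fun z hz => ⟨mem_univ _, hab _ hz.2⟩) ?_
  exact ((hom Z c).isClosedEmbedding.tendsto_cocompact).mono_left inf_le_left

theorem core (h2 : S_Un) (h3 : S_Co) {G : Type} [Group G] {Z Y : Type} [TopologicalSpace Z]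
    [T2Space Z] [TopologicalSpace Y] (α : Act G Z) (β : Act G Y) (y0 : Y) (f f' f'' : Z → Y)
    (H₁ H₂ : Z × ℝ → Y) (v1 : VanOn y0 (univ ×ˢ Icc (0 : ℝ) 1) H₁)
    (v2 : VanOn y0 (univ ×ˢ Icc (0 : ℝ) 1) H₂) (e1 : ∀ z, H₁ (z, 0) = f z ∧ H₁ (z, 1) = f' z)
    (e2 : ∀ z, H₂ (z, 0) = f' z ∧ H₂ (z, 1) = f'' z)
    (g1 : ∀ g z, ∀ t ∈ Icc (0 : ℝ) 1, H₁ (α.a g z, t) = β.a g (H₁ (z, t)))
    (g2 : ∀ g z, ∀ t ∈ Icc (0 : ℝ) 1, H₂ (α.a g z, t) = β.a g (H₂ (z, t))) :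
    ∃ H : Z × ℝ → Y, VanOn y0 (univ ×ˢ Icc (0 : ℝ) 1) H ∧
      (∀ z, H (z, 0) = f z ∧ H (z, 1) = f'' z) ∧
      ∀ g z, ∀ t ∈ Icc (0 : ℝ) 1, H (α.a g z, t) = β.a g (H (z, t)) := by
  refine ⟨fun q => if q.2 ≤ 1 / 2 then H₁ (q.1, 2 * q.2 + 0) else H₂ (q.1, 2 * q.2 + -1),
    ?_, ?_, ?_⟩
  · have hu : (univ : Set Z) ×ˢ Icc (0 : ℝ) 1 =
        (univ ×ˢ Icc (0 : ℝ) (1 / 2)) ∪ (univ ×ˢ Icc (1 / 2 : ℝ) 1) := by
      rw [← Set.prod_union, Set.Icc_union_Icc_eq_Icc (by norm_num) (by norm_num)]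
    rw [hu]
    refine h2.1 _ _ y0 _ _ _ (isClosed_univ.prod isClosed_Icc) (isClosed_univ.prod isClosed_Icc)
      ?_ ?_
    · refine vanOn_congr (vanOn_hom h3 v1 0 0 (1 / 2) (fun t ht => ⟨by linarith [ht.1],
        by linarith [ht.2]⟩)) ?_
      intro z hz
      exact if_pos hz.2.2
    · refine vanOn_congr (vanOn_hom h3 v2 (-1) (1 / 2) 1 (fun t ht => ⟨by linarith [ht.1],
        by linarith [ht.2]⟩)) ?_
      rintro ⟨z, t⟩ hz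
      have ht : 1 / 2 ≤ t := hz.2.1
      show (if t ≤ 1 / 2 then H₁ (z, 2 * t + 0) else H₂ (z, 2 * t + -1)) = H₂ (z, 2 * t + -1)
      by_cases h : t ≤ 1 / 2
      · have h5 : t = 1 / 2 := le_antisymm h ht
        subst h5
        rw [if_pos h, show (2 * (1 / 2) + 0 : ℝ) = 1 by norm_num,
          show (2 * (1 / 2) + -1 : ℝ) = 0 by norm_num, (e1 z).2, (e2 z).1]
      · rw [if_neg h]
  · intro z
    constructor
    · show (if (0 : ℝ) ≤ 1 / 2 then H₁ (z, 2 * 0 + 0) else H₂ (z, 2 * 0 + -1)) = f z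
      rw [if_pos (by norm_num), show (2 * 0 + 0 : ℝ) = 0 by norm_num, (e1 z).1]
    · show (if (1 : ℝ) ≤ 1 / 2 then H₁ (z, 2 * 1 + 0) else H₂ (z, 2 * 1 + -1)) = f'' z
      rw [if_neg (by norm_num), show (2 * 1 + -1 : ℝ) = 1 by norm_num, (e2 z).2]
  · intro g z t ht
    show (if t ≤ 1 / 2 then H₁ (α.a g z, 2 * t + 0) else H₂ (α.a g z, 2 * t + -1)) =
      β.a g (if t ≤ 1 / 2 then H₁ (z, 2 * t + 0) else H₂ (z, 2 * t + -1))
    by_cases h : t ≤ 1 / 2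
    · rw [if_pos h, if_pos h]
      exact g1 g z _ ⟨by linarith [ht.1], by linarith⟩
    · rw [if_neg h, if_neg h]
      push Not at h
      exact g2 g z _ ⟨by linarith, by linarith [ht.2]⟩

end CtAux

theorem pCt (_h1 : S_Ha) (h2 : S_Un) (h3 : S_Co) : S_Ct := by
  intro G _ Z Y _ _ _ α β y0 f f' f''
  rintro ⟨H₁, v1, e1, g1⟩
  constructor
  · rintro ⟨H₂, v2, e2, g2⟩
    exact CtAux.core h2 h3 α β y0 f f' f'' H₁ H₂ v1 v2 e1 e2 g1 g2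
  · rintro ⟨H₂, v2, e2, g2⟩
    obtain ⟨H, v, e, g⟩ := CtAux.core h2 h3 α β y0 f f' (fun _ => y0) H₁ H₂ v1 v2 e1
      (fun z => e2 z (mem_univ z)) g1 (fun g z => g2 g z (mem_univ z))
    exact ⟨H, v, fun z _ => e z, fun g' z _ => g g' z⟩

end Pool.Agent.Tate.Cel
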