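import Pool.Agent.Lib.Tate.Inj.Spec

/-!
# C42, block Inj: maps on a free space are null homotopic (helper12)
-/

set_option autoImplicit false

open Set Filter Topology Metric
open scoped OnePoint

noncomputable section

namespace Pool.Agent.Tate.Cel

namespace Frx

theorem SJ_zero (d : ℕ) : SJ d 0 = ∅ := by
  ext x
  simp only [mem_empty_iff_false, iff_false]
  intro hx
  have h0 : (x.1 : EuclideanSpace ℝ (Fin d)) = 0 := by
    ext i
    exact hx i (Nat.zero_le _)
  have h1 : ‖(x.1 : EuclideanSpace ℝ (Fin d))‖ = 1 := by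
    have := x.1.2
    rwa [mem_sphere_zero_iff_norm] at this
  rw [h0, norm_zero] at h1
  exact zero_ne_one h1

theorem SJ_top (d : ℕ) : SJ d d = univ := by
  ext x
  simp only [mem_univ, iff_true]
  intro i hi
  have := i.isLt
  omega

end Frx

theorem pFr (h1 : S_Cl) (h2 : S_C0) (h3 : S_C1) : S_Fr := by
  intro G _ _ χ ψ hCh W Y _ _ _ _ ω β y0 d f hy hext hf heq
  have main : ∀ j ≤ d, NullOn (((actS χ d).prod (actZ ψ)).prod ω) β y0
      (SJ d j ×ˢ (univ : Set W)) f := by
    intro j
    induction j with
    | zero =>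
      intro _
      refine ⟨fun _ => y0, ?_, ?_, ?_⟩
      · rw [Frx.SJ_zero]
        unfold VanOn
        simp only [empty_prod, image_empty, insert_empty_eq]
        exact continuousOn_singleton _ _
      · intro z hz
        rw [Frx.SJ_zero] at hz
        exact absurd hz.1 (notMem_empty _)
      · intro g z hz
        rw [Frx.SJ_zero] at hz
        exact absurd hz.1 (notMem_empty _)
    | succ j ih =>
      intro hj
      have hj' : j < d := hj
      obtain ⟨Φ0, hΦ0⟩ := h2 G χ ψ hCh d j hj'
      obtain ⟨Φ1, hΦ1⟩ := h3 G χ ψ hCh d j hj'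
      have a1 := h1 G (Sph d × Circle) (EuclideanSpace ℝ (Fin j)) W Y
        ((actS χ d).prod (actZ ψ)) ω β y0 (SJ d j) (SJ' d j) Φ0 f hy hΦ0 hf heq
        (hext _ (by
          rw [finrank_euclideanSpace, Fintype.card_fin]
          omega)) (ih hj'.le)
      exact h1 G (Sph d × Circle) (EuclideanSpace ℝ (Fin j) × ℝ) W Y
        ((actS χ d).prod (actZ ψ)) ω β y0 (SJ' d j) (SJ d (j + 1)) Φ1 f hy hΦ1 hf heq
        (hext _ (by
          rw [Module.finrank_prod, finrank_euclideanSpace, Fintype.card_fin, Module.finrank_self]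
          omega)) a1
  have := main d le_rfl
  rwa [Frx.SJ_top, univ_prod_univ] at this

end Pool.Agent.Tate.Cel
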