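import Pool.Agent.Lib.Tate.Inj.Spec

/-!
# C42, block Inj: group elements (helper12)
-/

set_option autoImplicit false

open Set Filter Topology Metric
open scoped OnePoint

noncomputable section

namespace Pool.Agent.Tate.Cel

theorem pGp : S_Gp := by
  intro G _ χ ψ h ε ζ hζ
  obtain ⟨g0, h0, h0'⟩ := h.gi
  obtain ⟨g1, h1, h1'⟩ := h.gm
  have hz : (ζ : ℂ) ^ 4 = 1 := by rw [← Circle.coe_pow, hζ, Circle.coe_one]
  have hI : Complex.I ^ 2 = -1 := Complex.I_sq
  obtain ⟨k, hk⟩ : ∃ k : ℕ, (ζ : ℂ) = Complex.I ^ k := by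
    have e : ((ζ : ℂ) - 1) * ((ζ : ℂ) + 1) * (((ζ : ℂ) - Complex.I) * ((ζ : ℂ) + Complex.I))
        = 0 := by
      linear_combination hz - ((ζ : ℂ) ^ 2 - 1) * hI
    rcases mul_eq_zero.1 e with e | e
    · rcases mul_eq_zero.1 e with e | e
      · exact ⟨0, by rw [pow_zero]; exact sub_eq_zero.1 e⟩
      · exact ⟨2, by rw [hI]; exact eq_neg_of_add_eq_zero_left e⟩
    · rcases mul_eq_zero.1 e with e | e
      · exact ⟨1, by rw [pow_one]; exact sub_eq_zero.1 e⟩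
      · refine ⟨3, ?_⟩
        rw [pow_succ, hI, neg_one_mul]
        exact eq_neg_of_add_eq_zero_left e
  have hψ : ψ (g0 ^ k) = ζ := by
    apply Circle.ext
    rw [map_pow, Circle.coe_pow, h0', hk]
  have hχ : χ (g0 ^ k) = 1 := by rw [map_pow, h0, one_pow]
  rcases Int.units_eq_one_or ε with he | he
  · exact ⟨g0 ^ k, by rw [hχ, he], hψ⟩
  · exact ⟨g0 ^ k * g1, by rw [map_mul, hχ, h1, he, one_mul], by rw [map_mul, hψ, h1', mul_one]⟩

end Pool.Agent.Tate.Cel
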