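import Pool.Agent.Lib.Tate.Inj.Spec

/-!
# C42, block Inj, Ha: description of `VanOn`
-/

set_option autoImplicit false

open Set Filter Topology Metric
open scoped OnePoint

noncomputable section

namespace Pool.Agent.Tate.Cel

theorem pHa : S_Ha := by
  intro Z Y _ _ _ y0 C h
  have hcoe : ∀ z : Z, hat y0 h (z : OnePoint Z) = h z := fun z => rfl
  have hinf : hat y0 h (∞ : OnePoint Z) = y0 := rfl
  unfold VanOn
  constructor
  · intro hc
    refine ⟨fun z hz => ?_, ?_⟩
    · have h1 := hc (z : OnePoint Z) (Or.inr ⟨z, hz, rfl⟩)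
      have h2 : ContinuousWithinAt (fun z : Z => (z : OnePoint Z)) C z :=
        OnePoint.continuous_coe.continuousWithinAt
      exact h1.comp h2 fun w hw => Or.inr ⟨w, hw, rfl⟩
    · have h1 := hc (∞ : OnePoint Z) (Or.inl rfl)
      unfold ContinuousWithinAt at h1
      rw [hinf] at h1
      have h2 : Tendsto (fun z : Z => (z : OnePoint Z)) (cocompact Z ⊓ 𝓟 C)
          (𝓝[insert ∞ ((fun z : Z => (z : OnePoint Z)) '' C)] ∞) := by
        refine tendsto_inf.2 ⟨?_, ?_⟩
        · have h3 : Tendsto (fun z : Z => (z : OnePoint Z)) (coclosedCompact Z) (𝓝 ∞) :=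
            OnePoint.tendsto_coe_infty
          rw [coclosedCompact_eq_cocompact] at h3
          exact h3.mono_left inf_le_left
        · refine Tendsto.mono_left ?_ inf_le_right
          exact tendsto_principal_principal.2 fun w hw => Or.inr ⟨w, hw, rfl⟩
      exact h1.comp h2
  · rintro ⟨h1, h2⟩ p hp
    rcases hp with rfl | ⟨z, hz, rfl⟩
    · rw [continuousWithinAt_insert_self]
      unfold ContinuousWithinAt
      rw [hinf]
      intro U hU
      have h3 := h2 hU
      rw [mem_map, mem_inf_principal, mem_cocompact] at h3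
      obtain ⟨K, hK, hKU⟩ := h3
      have h4 : ((fun z : Z => (z : OnePoint Z)) '' K)ᶜ ∈ 𝓝 (∞ : OnePoint Z) := by
        apply IsOpen.mem_nhds
        · exact OnePoint.isOpen_compl_image_coe.2 ⟨hK.isClosed, hK⟩
        · rintro ⟨w, _, hw⟩
          exact OnePoint.coe_ne_infty w hw
      rw [mem_map, mem_nhdsWithin_iff_exists_mem_nhds_inter]
      refine ⟨_, h4, ?_⟩
      rintro p ⟨hp, w, hw, rfl⟩
      have hwK : w ∈ Kᶜ := fun h' => hp ⟨w, h', rfl⟩
      exact hKU hwK hw
    · show ContinuousWithinAt _ _ ((z : Z) : OnePoint Z)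
      unfold ContinuousWithinAt
      have hne : ((z : Z) : OnePoint Z) ≠ ∞ := OnePoint.coe_ne_infty z
      rw [nhdsWithin_insert_of_ne hne, hcoe]
      have h3 := OnePoint.isOpenEmbedding_coe.isEmbedding.map_nhdsWithin_eq C z
      rw [← h3, tendsto_map'_iff]
      exact h1 z hz

end Pool.Agent.Tate.Cel
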