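import Pool.Agent.Lib.Tate.Inj.Spec

set_option autoImplicit false

open Set Filter Topology Metric
open scoped OnePoint

namespace Pool.Agent.Tate.Cel

private theorem hm_sum (d j : ℕ) (hj : j < d) (F : Fin d → ℝ)
    (h0 : ∀ i : Fin d, j < (i : ℕ) → F i = 0) :
    ∑ i, F i = (∑ i : Fin j, F ⟨i, i.isLt.trans hj⟩) + F ⟨j, hj⟩ := by
  obtain ⟨k, rfl⟩ : ∃ k, d = (j + 1) + k := ⟨d - (j + 1), by omega⟩
  rw [Fin.sum_univ_add, Fin.sum_univ_castSucc]
  have h1 : ∑ i : Fin k, F (Fin.natAdd (j + 1) i) = 0 := by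
    refine Finset.sum_eq_zero (fun i _ => h0 _ ?_)
    simp only [Fin.val_natAdd]
    omega
  rw [h1, add_zero]
  rfl

/-- the coordinates of the hemisphere -/
private noncomputable def hmc (d j : ℕ) (s : EuclideanSpace ℝ (Fin j)) (i : Fin d) : ℝ :=
  if h : (i : ℕ) < j then s ⟨i, h⟩ else if (i : ℕ) = j then √(1 - ‖s‖ ^ 2) else 0

private theorem hmc_lt {d j : ℕ} (s : EuclideanSpace ℝ (Fin j)) (i : Fin d) (h : (i : ℕ) < j) :
    hmc d j s i = s ⟨i, h⟩ := dif_pos h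

private theorem hmc_eq {d j : ℕ} (s : EuclideanSpace ℝ (Fin j)) (i : Fin d) (h : (i : ℕ) = j) :
    hmc d j s i = √(1 - ‖s‖ ^ 2) := by
  unfold hmc
  rw [dif_neg (by omega), if_pos h]

private theorem hmc_gt {d j : ℕ} (s : EuclideanSpace ℝ (Fin j)) (i : Fin d) (h : j < (i : ℕ)) :
    hmc d j s i = 0 := by
  unfold hmc
  rw [dif_neg (by omega), if_neg (by omega)]

private theorem hmc_sum {d j : ℕ} (hj : j < d) (s : EuclideanSpace ℝ (Fin j)) (hs : ‖s‖ ≤ 1) :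
    ∑ i, hmc d j s i ^ 2 = 1 := by
  rw [hm_sum d j hj (fun i => hmc d j s i ^ 2) (fun i hi => by
    simp only [hmc_gt s i hi]; norm_num)]
  have h1 : ∑ i : Fin j, hmc d j s ⟨i, i.isLt.trans hj⟩ ^ 2 = ‖s‖ ^ 2 := by
    rw [EuclideanSpace.real_norm_sq_eq]
    refine Finset.sum_congr rfl (fun i _ => ?_)
    rw [hmc_lt s ⟨i, i.isLt.trans hj⟩ i.isLt]
  have h2 : hmc d j s ⟨j, hj⟩ ^ 2 = 1 - ‖s‖ ^ 2 := by
    rw [hmc_eq s _ rfl, Real.sq_sqrt]
    nlinarith [norm_nonneg s]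
  rw [h1, h2]
  ring

private theorem hmc_cont (d j : ℕ) :
    Continuous fun s : EuclideanSpace ℝ (Fin j) => (WithLp.toLp 2 (hmc d j s) :
      EuclideanSpace ℝ (Fin d)) := by
  refine (PiLp.continuous_toLp 2 _).comp (continuous_pi fun i => ?_)
  by_cases h : (i : ℕ) < j
  · have : (fun s : EuclideanSpace ℝ (Fin j) => hmc d j s i) = fun s => s ⟨i, h⟩ := by
      funext s
      exact hmc_lt s i h
    rw [this]
    exact (continuous_apply (⟨i, h⟩ : Fin j)).comp (PiLp.continuous_ofLp 2 _)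
  · by_cases h' : (i : ℕ) = j
    · have : (fun s : EuclideanSpace ℝ (Fin j) => hmc d j s i) = fun s => √(1 - ‖s‖ ^ 2) := by
        funext s
        exact hmc_eq s i h'
      rw [this]
      fun_prop
    · have : (fun s : EuclideanSpace ℝ (Fin j) => hmc d j s i) = fun _ => 0 := by
        funext s
        exact hmc_gt s i (by omega)
      rw [this]
      exact continuous_const

private theorem hmc_sph {d j : ℕ} (hj : j < d) (s : EuclideanSpace ℝ (Fin j)) (hs : ‖s‖ ≤ 1) :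
    (WithLp.toLp 2 (hmc d j s) : EuclideanSpace ℝ (Fin d)) ∈
      sphere (0 : EuclideanSpace ℝ (Fin d)) 1 := by
  rw [mem_sphere_zero_iff_norm]
  have h1 : ‖(WithLp.toLp 2 (hmc d j s) : EuclideanSpace ℝ (Fin d))‖ ^ 2 = 1 := by
    rw [EuclideanSpace.real_norm_sq_eq]
    exact hmc_sum hj s hs
  have h2 := norm_nonneg (WithLp.toLp 2 (hmc d j s) : EuclideanSpace ℝ (Fin d))
  nlinarith

theorem pHm : S_Hm := by
  classical
  intro d j hj
  let p0 : Sph d := ⟨_, hmc_sph hj 0 (by simp)⟩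
  let he : EuclideanSpace ℝ (Fin j) → Sph d := fun s =>
    if h : ‖s‖ ≤ 1 then ⟨_, hmc_sph hj s h⟩ else p0
  have hev : ∀ s, ‖s‖ ≤ 1 → (he s : EuclideanSpace ℝ (Fin d)) = WithLp.toLp 2 (hmc d j s) := by
    intro s h
    have : he s = ⟨_, hmc_sph hj s h⟩ := dif_pos h
    rw [this]
  have hec : ∀ s, ‖s‖ ≤ 1 → ∀ i, (he s : EuclideanSpace ℝ (Fin d)) i = hmc d j s i := by
    intro s h i
    rw [hev s h]
  refine ⟨he, ?_, ?_, ?_, ?_, ?_, ?_⟩
  · rw [Topology.IsInducing.subtypeVal.continuousOn_iff]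
    refine (hmc_cont d j).continuousOn.congr (fun s hs => ?_)
    rw [mem_closedBall_zero_iff] at hs
    exact hev s hs
  · intro s hs i hi
    rw [hec s hs, hmc_gt s i hi]
  · intro s hs i
    rw [hec s hs, hmc_lt s ⟨i, i.isLt.trans hj⟩ i.isLt]
  · intro s hs
    rw [hec s hs.le, hmc_eq s _ rfl, hs]
    norm_num
  · intro s hs
    rw [hec s hs.le, hmc_eq s _ rfl]
    apply Real.sqrt_pos.2
    nlinarith [norm_nonneg s]
  · intro a ha haj
    have h1 : ‖(a : EuclideanSpace ℝ (Fin d))‖ ^ 2 = 1 := by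
      rw [mem_sphere_zero_iff_norm.1 a.2]
      norm_num
    rw [EuclideanSpace.real_norm_sq_eq, hm_sum d j hj (fun i => (a : EuclideanSpace ℝ (Fin d)) i ^ 2)
      (fun i hi => by simp only [ha i hi]; norm_num)] at h1
    let s : EuclideanSpace ℝ (Fin j) := WithLp.toLp 2 fun i =>
      (a : EuclideanSpace ℝ (Fin d)) ⟨i, i.isLt.trans hj⟩
    have hs : ‖s‖ ^ 2 = 1 - (a : EuclideanSpace ℝ (Fin d)) ⟨j, hj⟩ ^ 2 := by
      rw [EuclideanSpace.real_norm_sq_eq]
      have : ∑ i : Fin j, s i ^ 2 =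
          ∑ i : Fin j, (a : EuclideanSpace ℝ (Fin d)) ⟨i, i.isLt.trans hj⟩ ^ 2 := rfl
      rw [this]
      linarith
    have hs1 : ‖s‖ < 1 := by
      have h2 : 0 < (a : EuclideanSpace ℝ (Fin d)) ⟨j, hj⟩ ^ 2 := by positivity
      nlinarith [norm_nonneg s]
    refine ⟨s, hs1, ?_⟩
    apply Subtype.ext
    ext i
    rw [hec s hs1.le]
    rcases lt_trichotomy (i : ℕ) j with h | h | h
    · rw [hmc_lt s i h]
    · rw [hmc_eq s i h, hs]
      have h3 : i = ⟨j, hj⟩ := Fin.ext h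
      rw [h3, sub_sub_cancel, Real.sqrt_sq haj.le]
    · rw [hmc_gt s i h, ha i h]

end Pool.Agent.Tate.Cel
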