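import Pool.Agent.Lib.Tate.Inj.Spec

/-!
# C42, block Inj: comparison with maps on `X × OnePoint W` (task of helper35, by helper77)
-/

set_option autoImplicit false

open Set Filter Topology Metric
open scoped OnePoint

noncomputable section

namespace Pool.Agent.Tate.Cel

/-- **Op.** Comparison with maps on `X × OnePoint W`. -/
theorem pOp (hHa : S_Ha) : S_Op := by
  intro X W Y _ _ _ _ _ _ _ y0 h
  rw [hHa, principal_univ, inf_top_eq, continuousOn_univ]
  have he : IsOpenEmbedding (Prod.map id ((↑) : W → OnePoint W) : X × W → X × OnePoint W) :=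
    IsOpenEmbedding.id.prodMap OnePoint.isOpenEmbedding_coe
  have hF : (fun p : X × OnePoint W => hat y0 (fun w => h (p.1, w)) p.2) ∘
      (Prod.map id ((↑) : W → OnePoint W) : X × W → X × OnePoint W) = h := by
    funext p
    rfl
  constructor
  · rintro ⟨hc, ht⟩
    rw [continuous_iff_continuousAt]
    rintro ⟨x, p⟩
    induction p using OnePoint.rec with
    | infty =>
      intro N hN
      have hN' : N ∈ 𝓝 y0 := hN
      obtain ⟨K, hK, hKN⟩ := mem_cocompact.1 (ht hN')
      have hK' : IsCompact (Prod.snd '' K : Set W) := hK.image continuous_snd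
      have hU : IsOpen (((↑) : W → OnePoint W) '' (Prod.snd '' K))ᶜ :=
        OnePoint.isOpen_compl_image_coe.2 ⟨hK'.isClosed, hK'⟩
      have hm : (univ : Set X) ×ˢ (((↑) : W → OnePoint W) '' (Prod.snd '' K))ᶜ ∈
          𝓝 ((x, ∞) : X × OnePoint W) := by
        refine (isOpen_univ.prod hU).mem_nhds ⟨mem_univ _, ?_⟩
        rintro ⟨w, -, hw⟩
        exact OnePoint.coe_ne_infty w hw
      refine Filter.mem_map.2 (Filter.mem_of_superset hm ?_)
      rintro ⟨x', p'⟩ ⟨-, hp'⟩
      induction p' using OnePoint.rec with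
      | infty =>
        have h0 : y0 ∈ N := mem_of_mem_nhds hN'
        exact h0
      | coe w =>
        change h (x', w) ∈ N
        apply hKN
        intro hw
        exact hp' ⟨w, ⟨(x', w), hw, rfl⟩, rfl⟩
    | coe w =>
      have h1 : ContinuousAt ((fun p : X × OnePoint W => hat y0 (fun w => h (p.1, w)) p.2) ∘
          (Prod.map id ((↑) : W → OnePoint W) : X × W → X × OnePoint W)) (x, w) := by
        rw [hF]
        exact hc.continuousAt
      exact he.continuousAt_iff.1 h1
  · intro hc
    refine ⟨?_, ?_⟩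
    · rw [← hF]
      exact hc.comp he.continuous
    · intro N hN
      obtain ⟨N', hN'N, hN'o, hy⟩ := mem_nhds_iff.1 hN
      obtain ⟨u, v, hu, hv, hsu, htv, huv⟩ := generalized_tube_lemma (isCompact_univ (X := X))
        (isCompact_singleton (x := (∞ : OnePoint W)))
        (hN'o.preimage hc) (by
          rintro ⟨x, p⟩ ⟨-, hp⟩
          rw [mem_singleton_iff] at hp
          change p = ∞ at hp
          subst hp
          exact hy)
      have hinf : ∞ ∈ v := htv rfl
      have hK := ((OnePoint.isOpen_iff_of_mem hinf).1 hv).2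
      refine mem_cocompact.2 ⟨univ ×ˢ (((↑) : W → OnePoint W) ⁻¹' v)ᶜ,
        isCompact_univ.prod hK, ?_⟩
      rintro ⟨x, w⟩ hxw
      have hwv : (w : OnePoint W) ∈ v := by
        by_contra hh
        exact hxw ⟨mem_univ _, hh⟩
      exact hN'N (huv (⟨hsu (mem_univ x), hwv⟩ : ((x, (w : OnePoint W)) : X × OnePoint W) ∈ u ×ˢ v))

end Pool.Agent.Tate.Cel
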