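import Pool.Agent.Lib.Tate.Inj.Spec

/-!
# C42, block Inj: polar coordinates, first part (helper12)
-/

set_option autoImplicit false

open Set Filter Topology Metric
open scoped OnePoint

noncomputable section

namespace Pool.Agent.Tate.Cel

theorem pP1 (h1 : S_Ha) : S_P1 := by
  intro G _ ψ X U Y _ _ _ _ _ _ _ α ω β y0 f1 hf heq h0 f2 hf2
  obtain ⟨c1, t1⟩ := (h1 _ _ y0 univ f1).1 hf
  rw [continuousOn_univ] at c1
  rw [principal_univ, inf_top_eq] at t1
  have hk : Continuous fun p : (X × Circle) × (U × ℝ) =>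
      ((p.1.1, (p.2.1, (Real.exp p.2.2 : ℂ) * (p.1.2 : ℂ))) : X × (U × ℂ)) := by
    refine Continuous.prodMk (by fun_prop) (Continuous.prodMk (by fun_prop) ?_)
    refine Continuous.mul ?_ ?_
    · exact Complex.continuous_ofReal.comp (Real.continuous_exp.comp (by fun_prop))
    · exact (continuous_subtype_val : Continuous fun z : Circle => (z : ℂ)).comp (by fun_prop)
  refine ⟨?_, ?_⟩
  · rw [h1, hf2]
    refine ⟨(c1.comp hk).continuousOn, ?_⟩
    rw [principal_univ, inf_top_eq]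
    refine tendsto_nhds.2 fun N hN hy => ?_
    -- the compact set where `f1` is not in `N`
    have hm : f1 ⁻¹' N ∈ cocompact (X × (U × ℂ)) := t1 (hN.mem_nhds hy)
    obtain ⟨t, ht, hts⟩ := mem_cocompact.1 hm
    have hK : IsCompact (f1 ⁻¹' N)ᶜ :=
      ht.of_isClosed_subset (hN.preimage c1).isClosed_compl (compl_subset_comm.1 hts)
    have hz : ∀ q ∈ (f1 ⁻¹' N)ᶜ, q.2.2 ≠ 0 := fun q hq h => by
      apply hq
      show f1 q ∈ N
      have : q = (q.1, (q.2.1, 0)) := by rw [← h]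
      rw [this, h0]
      exact hy
    obtain ⟨C1, hC1⟩ := hK.exists_bound_of_continuousOn (f := fun q => q.2.1)
      (by fun_prop)
    obtain ⟨C2, hC2⟩ := hK.exists_bound_of_continuousOn (f := fun q => q.2.2)
      (by fun_prop)
    obtain ⟨C3, hC3⟩ := hK.exists_bound_of_continuousOn (f := fun q => (q.2.2)⁻¹)
      (ContinuousOn.inv₀ (by fun_prop) hz)
    refine mem_cocompact.2 ⟨(univ : Set (X × Circle)) ×ˢ (closedBall (0 : U) C1 ×ˢ
      Icc (-C3) C2), isCompact_univ.prod ((isCompact_closedBall 0 C1).prod isCompact_Icc), ?_⟩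
    intro p hp
    by_contra hn
    apply hp
    have hq : ((p.1.1, (p.2.1, (Real.exp p.2.2 : ℂ) * (p.1.2 : ℂ))) : X × (U × ℂ))
        ∈ (f1 ⁻¹' N)ᶜ := hn
    have b1 := hC1 _ hq
    have b2 := hC2 _ hq
    have b3 := hC3 _ hq
    simp only at b1 b2 b3
    have e2 : ‖(Real.exp p.2.2 : ℂ) * (p.1.2 : ℂ)‖ = Real.exp p.2.2 := by
      rw [norm_mul, Circle.norm_coe, mul_one, Complex.norm_real, Real.norm_eq_abs,
        abs_of_pos (Real.exp_pos _)]
    rw [e2] at b2
    rw [norm_inv, e2, ← Real.exp_neg] at b3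
    have b4 := Real.add_one_le_exp p.2.2
    have b5 := Real.add_one_le_exp (-p.2.2)
    refine ⟨mem_univ _, ?_, ?_, ?_⟩
    · rw [mem_closedBall_zero_iff]; exact b1
    · linarith
    · linarith
  · intro g p
    rw [hf2]
    have h := heq g (p.1.1, (p.2.1, (Real.exp p.2.2 : ℂ) * (p.1.2 : ℂ)))
    show f1 (α.a g p.1.1, (ω.a g p.2.1, (Real.exp p.2.2 : ℂ) * ((ψ g * p.1.2 : Circle) : ℂ)))
      = β.a g (f1 (p.1.1, (p.2.1, (Real.exp p.2.2 : ℂ) * (p.1.2 : ℂ))))
    rw [← h]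
    show _ = f1 (α.a g p.1.1, (ω.a g p.2.1, (ψ g : ℂ) * ((Real.exp p.2.2 : ℂ) * (p.1.2 : ℂ))))
    rw [Circle.coe_mul, mul_left_comm]

end Pool.Agent.Tate.Cel
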