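import Pool.Agent.Lib.Tate.Inj.Spec

/-!
# C42, block Inj: polar coordinates, second part (helper12)
-/

set_option autoImplicit false

open Set Filter Topology Metric
open scoped OnePoint

noncomputable section

namespace Pool.Agent.Tate.Cel

namespace P2x

/-- The direction of `z`. -/
def dir (z : ℂ) : Circle := Circle.exp (Complex.arg z)

theorem dir_coe {z : ℂ} (hz : z ≠ 0) : (dir z : ℂ) = z / (‖z‖ : ℂ) := by
  have h := Complex.norm_mul_exp_arg_mul_I z
  have hn : (‖z‖ : ℂ) ≠ 0 := by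
    rw [Complex.ofReal_ne_zero]; exact norm_ne_zero_iff.2 hz
  unfold dir
  rw [Circle.coe_exp, eq_div_iff hn, mul_comm]
  exact h

theorem dir_cont {z : ℂ} (hz : z ≠ 0) : ContinuousAt dir z := by
  have hi : Topology.IsInducing (fun z : Circle => (z : ℂ)) := Topology.IsInducing.subtypeVal
  refine hi.continuousAt_iff.2 ?_
  have h : ContinuousAt (fun w : ℂ => w / (‖w‖ : ℂ)) z := by
    refine continuousAt_id.div (by fun_prop) ?_
    rw [Complex.ofReal_ne_zero]; exact norm_ne_zero_iff.2 hz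
  refine h.congr ?_
  filter_upwards [isOpen_ne.mem_nhds hz] with w hw
  exact (dir_coe hw).symm

theorem dir_mul (ζ : Circle) {z : ℂ} (hz : z ≠ 0) : dir ((ζ : ℂ) * z) = ζ * dir z := by
  have hζ : (ζ : ℂ) ≠ 0 := Circle.coe_ne_zero ζ
  apply Circle.ext
  rw [Circle.coe_mul, dir_coe hz, dir_coe (mul_ne_zero hζ hz), norm_mul, Circle.norm_coe, one_mul,
    mul_div_assoc]

theorem exp_dir {z : ℂ} (hz : z ≠ 0) : (Real.exp (Real.log ‖z‖) : ℂ) * (dir z : ℂ) = z := by
  have hn : (‖z‖ : ℂ) ≠ 0 := by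
    rw [Complex.ofReal_ne_zero]; exact norm_ne_zero_iff.2 hz
  rw [dir_coe hz, Real.exp_log (norm_pos_iff.2 hz)]
  field_simp

variable {X U Y : Type}

/-- The point in polar coordinates. -/
def kk (q : (X × (U × ℂ)) × ℝ) : ((X × Circle) × (U × ℝ)) × ℝ :=
  (((q.1.1, dir q.1.2.2), (q.1.2.1, Real.log ‖q.1.2.2‖)), q.2)

open Classical in
/-- The new homotopy. -/
def hh (y0 : Y) (H : ((X × Circle) × (U × ℝ)) × ℝ → Y) (q : (X × (U × ℂ)) × ℝ) : Y :=
  if q.1.2.2 = 0 then y0 else H (kk q)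

theorem hh_zero (y0 : Y) (H : ((X × Circle) × (U × ℝ)) × ℝ → Y) {q : (X × (U × ℂ)) × ℝ}
    (h : q.1.2.2 = 0) : hh y0 H q = y0 := if_pos h

theorem hh_ne (y0 : Y) (H : ((X × Circle) × (U × ℝ)) × ℝ → Y) {q : (X × (U × ℂ)) × ℝ}
    (h : q.1.2.2 ≠ 0) : hh y0 H q = H (kk q) := if_neg h

theorem kk_cont [TopologicalSpace X] [TopologicalSpace U] {q : (X × (U × ℂ)) × ℝ}
    (h : q.1.2.2 ≠ 0) : ContinuousAt (kk : (X × (U × ℂ)) × ℝ → _) q := by
  unfold kk
  refine ContinuousAt.prodMk (ContinuousAt.prodMk (ContinuousAt.prodMk (by fun_prop) ?_)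
    (ContinuousAt.prodMk (by fun_prop) ?_)) (by fun_prop)
  · exact ContinuousAt.comp (f := fun q : (X × (U × ℂ)) × ℝ => q.1.2.2) (dir_cont h) (by fun_prop)
  · exact ContinuousAt.log (by fun_prop) (norm_ne_zero_iff.2 h)

end P2x

theorem pP2 (h1 : S_Ha) : S_P2 := by
  intro G _ ψ X U Y _ _ _ _ _ _ _ α ω β y0 f1 hy h0 f2 hf2 hnull
  obtain ⟨H, hV, hval, heq⟩ := hnull
  obtain ⟨cH, tH⟩ := (h1 _ _ y0 _ H).1 hV
  refine ⟨P2x.hh y0 H, ?_, ?_, ?_⟩
  · -- bounds
    have key : ∀ N ∈ 𝓝 y0, ∃ R : ℝ, 0 ≤ R ∧ ∀ q : ((X × Circle) × (U × ℝ)) × ℝ,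
        q.2 ∈ Icc (0 : ℝ) 1 → H q ∉ N → ‖q.1.2.1‖ ≤ R ∧ |q.1.2.2| ≤ R := by
      intro N hN
      have hm := tH hN
      rw [mem_map, mem_inf_principal] at hm
      obtain ⟨t, ht, hts⟩ := mem_cocompact.1 hm
      obtain ⟨C1, hC1⟩ := ht.exists_bound_of_continuousOn
        (f := fun q : ((X × Circle) × (U × ℝ)) × ℝ => q.1.2.1) (by fun_prop)
      obtain ⟨C2, hC2⟩ := ht.exists_bound_of_continuousOn
        (f := fun q : ((X × Circle) × (U × ℝ)) × ℝ => q.1.2.2) (by fun_prop)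
      refine ⟨max 0 (max C1 C2), le_max_left _ _, fun q hq hn => ?_⟩
      have hqt : q ∈ t := by
        by_contra hc
        exact hn (hts hc ⟨mem_univ _, hq⟩)
      have b1 := hC1 q hqt
      have b2 := hC2 q hqt
      rw [Real.norm_eq_abs] at b2
      exact ⟨b1.trans ((le_max_left _ _).trans (le_max_right _ _)),
        b2.trans ((le_max_right _ _).trans (le_max_right _ _))⟩
    rw [h1]
    refine ⟨?_, ?_⟩
    · intro q hq
      by_cases hz : q.1.2.2 = 0
      · -- continuity at zero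
        show Tendsto (P2x.hh y0 H) (𝓝[_] q) (𝓝 (P2x.hh y0 H q))
        rw [P2x.hh_zero y0 H hz]
        intro N hN
        obtain ⟨R, hR, hb⟩ := key N hN
        have ho : IsOpen {p : (X × (U × ℂ)) × ℝ | ‖p.1.2.2‖ < Real.exp (-R)} :=
          isOpen_lt (by fun_prop) continuous_const
        have hm : {p : (X × (U × ℂ)) × ℝ | ‖p.1.2.2‖ < Real.exp (-R)} ∈ 𝓝 q :=
          ho.mem_nhds (by
            show ‖q.1.2.2‖ < Real.exp (-R)
            rw [hz, norm_zero]; exact Real.exp_pos _)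
        rw [mem_map]
        filter_upwards [mem_nhdsWithin_of_mem_nhds hm, self_mem_nhdsWithin] with p hp hpC
        show P2x.hh y0 H p ∈ N
        by_cases hp0 : p.1.2.2 = 0
        · rw [P2x.hh_zero y0 H hp0]; exact mem_of_mem_nhds hN
        · rw [P2x.hh_ne y0 H hp0]
          by_contra hn
          have := (hb (P2x.kk p) hpC.2 hn).2
          have h2 : -R ≤ Real.log ‖p.1.2.2‖ := (abs_le.1 this).1
          have h3 : Real.exp (-R) ≤ ‖p.1.2.2‖ :=
            (Real.le_log_iff_exp_le (norm_pos_iff.2 hp0)).1 h2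
          exact absurd hp (not_lt.2 h3)
      · -- continuity at nonzero points
        have hk := P2x.kk_cont (X := X) (U := U) hz
        have h3 : ContinuousWithinAt (fun p => H (P2x.kk p))
            ((univ : Set (X × (U × ℂ))) ×ˢ Icc (0 : ℝ) 1) q := by
          refine ContinuousWithinAt.comp (t := (univ : Set ((X × Circle) × (U × ℝ))) ×ˢ Icc (0 : ℝ) 1)
            (cH (P2x.kk q) ⟨mem_univ _, hq.2⟩) hk.continuousWithinAt ?_
          intro p hp
          exact ⟨mem_univ _, hp.2⟩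
        refine h3.congr_of_eventuallyEq ?_ (P2x.hh_ne y0 H hz)
        have hm : {p : (X × (U × ℂ)) × ℝ | p.1.2.2 ≠ 0} ∈ 𝓝 q :=
          (isOpen_ne_fun (by fun_prop) continuous_const).mem_nhds hz
        filter_upwards [mem_nhdsWithin_of_mem_nhds hm] with p hp
        exact P2x.hh_ne y0 H hp
    · intro N hN
      obtain ⟨R, hR, hb⟩ := key N hN
      rw [mem_map, mem_inf_principal]
      refine mem_cocompact.2 ⟨((univ : Set X) ×ˢ (closedBall (0 : U) R ×ˢ
        closedBall (0 : ℂ) (Real.exp R))) ×ˢ Icc (0 : ℝ) 1,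
        (isCompact_univ.prod ((isCompact_closedBall 0 R).prod (isCompact_closedBall 0 _))).prod
          isCompact_Icc, ?_⟩
      intro p hp hpC
      show P2x.hh y0 H p ∈ N
      by_cases hp0 : p.1.2.2 = 0
      · rw [P2x.hh_zero y0 H hp0]; exact mem_of_mem_nhds hN
      · rw [P2x.hh_ne y0 H hp0]
        by_contra hn
        obtain ⟨b1, b2⟩ := hb (P2x.kk p) hpC.2 hn
        apply hp
        refine ⟨⟨mem_univ _, ?_, ?_⟩, hpC.2⟩
        · rw [mem_closedBall_zero_iff]; exact b1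
        · rw [mem_closedBall_zero_iff]
          exact (Real.log_le_iff_le_exp (norm_pos_iff.2 hp0)).1 (abs_le.1 b2).2
  · intro z _
    by_cases hz : z.2.2 = 0
    · rw [P2x.hh_zero y0 H (q := (z, 0)) hz, P2x.hh_zero y0 H (q := (z, 1)) hz]
      refine ⟨?_, rfl⟩
      have : z = (z.1, (z.2.1, 0)) := by rw [← hz]
      rw [this, h0]
    · rw [P2x.hh_ne y0 H (q := (z, 0)) hz, P2x.hh_ne y0 H (q := (z, 1)) hz]
      have hv := hval ((z.1, P2x.dir z.2.2), (z.2.1, Real.log ‖z.2.2‖)) (mem_univ _)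
      refine ⟨?_, hv.2⟩
      show H (((z.1, P2x.dir z.2.2), (z.2.1, Real.log ‖z.2.2‖)), 0) = f1 z
      rw [hv.1, hf2]
      show f1 (z.1, (z.2.1, (Real.exp (Real.log ‖z.2.2‖) : ℂ) * (P2x.dir z.2.2 : ℂ))) = f1 z
      rw [P2x.exp_dir hz]
  · intro g z _ t ht
    by_cases hz : z.2.2 = 0
    · have hz' : ((α.prod (ω.prod (actC ψ))).a g z).2.2 = 0 := by
        show (ψ g : ℂ) * z.2.2 = 0
        rw [hz, mul_zero]
      rw [P2x.hh_zero y0 H (q := (_, t)) hz', P2x.hh_zero y0 H (q := (z, t)) hz, hy]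
    · have hz' : ((α.prod (ω.prod (actC ψ))).a g z).2.2 ≠ 0 :=
        mul_ne_zero (Circle.coe_ne_zero (ψ g)) hz
      rw [P2x.hh_ne y0 H (q := (_, t)) hz', P2x.hh_ne y0 H (q := (z, t)) hz]
      have h := heq g ((z.1, P2x.dir z.2.2), (z.2.1, Real.log ‖z.2.2‖)) (mem_univ _) t ht
      show H (((α.a g z.1, P2x.dir ((ψ g : ℂ) * z.2.2)),
        (ω.a g z.2.1, Real.log ‖(ψ g : ℂ) * z.2.2‖)), t) = _
      rw [P2x.dir_mul _ hz, norm_mul, Circle.norm_coe, one_mul]
      exact h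

end Pool.Agent.Tate.Cel
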