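import Pool.Agent.Lib.Tate.Inj.Spec

/-!
# C42, block Inj: continuity of the characteristic map
-/

set_option autoImplicit false

open Set Filter Topology Metric
open scoped OnePoint

noncomputable section

namespace Pool.Agent.Tate.Cel

theorem pQc (h1 : S_Sg) : S_Qc := by
  intro X E W _ _ _ _ _ _ Φ hΦ
  rintro ⟨s, w, t⟩ hp
  have hs : s ∈ closedBall (0 : E) 1 := hp.1
  rcases lt_or_ge ‖w‖ 1 with hw | hw
  · have hc : ContinuousWithinAt (fun p : E × W × ℝ =>
        ((((Φ p.1, (1 - ‖p.2.1‖)⁻¹ • p.2.1), (p.2.2 + 1) / 2) : (X × W) × ℝ) :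
          OnePoint ((X × W) × ℝ))) (closedBall (0 : E) 1 ×ˢ (univ : Set (W × ℝ))) (s, w, t) := by
      have hc1 : ContinuousWithinAt (fun p : E × W × ℝ => Φ p.1)
          (closedBall (0 : E) 1 ×ˢ (univ : Set (W × ℝ))) (s, w, t) :=
        (hΦ s hs).comp continuous_fst.continuousWithinAt (fun p hp => hp.1)
      have hc2 : ContinuousAt (fun p : E × W × ℝ => (1 - ‖p.2.1‖)⁻¹ • p.2.1) (s, w, t) := by
        have hc3 : Continuous fun p : E × W × ℝ => p.2.1 := continuous_fst.comp continuous_snd
        refine ContinuousAt.smul (ContinuousAt.inv₀ ?_ (by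
          show (1 : ℝ) - ‖w‖ ≠ 0
          linarith)) hc3.continuousAt
        exact (continuous_const.sub hc3.norm).continuousAt
      have hc4 : ContinuousAt (fun p : E × W × ℝ => (p.2.2 + 1) / 2) (s, w, t) := by
        have : Continuous fun p : E × W × ℝ => (p.2.2 + 1) / 2 := by fun_prop
        exact this.continuousAt
      exact OnePoint.continuous_coe.continuousAt.comp_continuousWithinAt
        ((hc1.prodMk hc2.continuousWithinAt).prodMk hc4.continuousWithinAt)
    refine hc.congr_of_eventuallyEq ?_ ?_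
    · have h3 : ∀ᶠ p : E × W × ℝ in 𝓝 (s, w, t), ‖p.2.1‖ < 1 := by
        have hc3 : Continuous fun p : E × W × ℝ => ‖p.2.1‖ :=
          (continuous_fst.comp continuous_snd).norm
        exact hc3.continuousAt.eventually_lt_const hw
      filter_upwards [nhdsWithin_le_nhds h3] with p hp
      unfold qq sg
      rw [if_pos hp]
      rfl
    · unfold qq sg
      simp only
      rw [if_pos hw]
      rfl
  · have hv : qq W Φ (s, w, t) = ∞ := by
      unfold qq sg
      simp only
      rw [if_neg (not_lt.mpr hw)]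
      rfl
    have hsv : sg W w = ∞ := if_neg (not_lt.mpr hw)
    unfold ContinuousWithinAt
    rw [hv, OnePoint.hasBasis_nhds_infty.tendsto_right_iff]
    rintro K ⟨-, hK⟩
    have hK' : IsCompact ((fun q : (X × W) × ℝ => q.1.2) '' K) :=
      hK.image (continuous_snd.comp continuous_fst)
    have hopen : IsOpen ((fun v : W => (v : OnePoint W)) ''
        ((fun q : (X × W) × ℝ => q.1.2) '' K))ᶜ :=
      OnePoint.isOpen_compl_image_coe.mpr ⟨hK'.isClosed, hK'⟩
    have h5 : ∀ᶠ w' in 𝓝 w, sg W w' ∈ ((fun v : W => (v : OnePoint W)) ''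
        ((fun q : (X × W) × ℝ => q.1.2) '' K))ᶜ := by
      refine (h1 W).1.continuousAt.eventually (hopen.mem_nhds ?_)
      rw [hsv]
      rintro ⟨v, -, hv⟩
      exact OnePoint.coe_ne_infty v hv
    have h6 : ∀ᶠ p : E × W × ℝ in 𝓝 (s, w, t), sg W p.2.1 ∈ ((fun v : W => (v : OnePoint W)) ''
        ((fun q : (X × W) × ℝ => q.1.2) '' K))ᶜ := by
      have hc3 : ContinuousAt (fun p : E × W × ℝ => p.2.1) (s, w, t) :=
        (continuous_fst.comp continuous_snd).continuousAt
      exact hc3.eventually h5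
    filter_upwards [nhdsWithin_le_nhds h6] with p hp
    unfold qq
    rcases hsg : sg W p.2.1 with _ | v
    · right
      rfl
    · left
      refine ⟨((Φ p.1, v), (p.2.2 + 1) / 2), ?_, rfl⟩
      intro h7
      apply hp
      rw [hsg]
      exact ⟨v, ⟨_, h7, rfl⟩, rfl⟩

end Pool.Agent.Tate.Cel
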