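import Pool.Agent.Lib.Tate.Inj.Spec

set_option autoImplicit false

open Set Filter Topology Metric
open scoped OnePoint

namespace Pool.Agent.Tate.Cel

theorem pQt : S_Qt := by
  intro P Z Y _ _ _ _ _ _ y0 q E C h hq hE hinf hfin hC
  have hat_q : ∀ p, hat y0 h (q p) = E p := by
    intro p
    rcases hqp : q p with _ | z
    · exact (hinf p hqp).symm
    · exact hfin p z hqp
  have hcl : IsClosed (range q) := (isCompact_range hq).isClosed
  have h1 : ContinuousOn (hat y0 h) (range q) := by
    rw [continuousOn_iff_isClosed]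
    intro K hK
    refine ⟨q '' (E ⁻¹' K), ((hK.preimage hE).isCompact.image hq).isClosed, ?_⟩
    ext x
    constructor
    · rintro ⟨hx, p, rfl⟩
      refine ⟨⟨p, ?_, rfl⟩, p, rfl⟩
      rw [mem_preimage, hat_q] at hx
      exact hx
    · rintro ⟨⟨p, hp, rfl⟩, hr⟩
      refine ⟨?_, hr⟩
      rw [mem_preimage, hat_q]
      exact hp
  have h2 : ContinuousOn (hat y0 h) {∞} := continuousOn_singleton _ _
  have h3 := h2.union_of_isClosed h1 isClosed_singleton hcl
  refine h3.mono ?_
  rw [insert_eq]
  apply union_subset_union subset_rfl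
  rintro _ ⟨z, hz, rfl⟩
  obtain ⟨p, hp⟩ := hC z hz
  exact ⟨p, hp⟩

end Pool.Agent.Tate.Cel
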