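import Pool.Agent.Lib.Tate.Inj.Spec

/-!
# C42, block Inj: the map `sg`
-/

set_option autoImplicit false

open Set Filter Topology Metric
open scoped OnePoint

noncomputable section

namespace Pool.Agent.Tate.Cel

theorem pSg : S_Sg := by
  intro W _ _ _
  refine ⟨?_, ?_, ?_⟩
  · rw [continuous_iff_continuousAt]
    intro w
    rcases lt_or_ge ‖w‖ 1 with hw | hw
    · have h1 : ContinuousAt (fun w : W => (((1 - ‖w‖)⁻¹ • w : W) : OnePoint W)) w := by
        have h2 : ContinuousAt (fun w : W => (1 - ‖w‖)⁻¹ • w) w := by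
          refine ContinuousAt.smul (ContinuousAt.inv₀ ?_ (by linarith)) continuousAt_id
          exact (continuous_const.sub continuous_norm).continuousAt
        exact OnePoint.continuous_coe.continuousAt.comp h2
      refine h1.congr ?_
      have h3 : ∀ᶠ w' in 𝓝 w, ‖w'‖ < 1 := continuous_norm.continuousAt.eventually_lt_const hw
      filter_upwards [h3] with w' hw'
      exact (if_pos hw').symm
    · have hv : sg W w = ∞ := if_neg (not_lt.mpr hw)
      unfold ContinuousAt
      rw [hv, OnePoint.hasBasis_nhds_infty.tendsto_right_iff]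
      rintro s ⟨-, hs⟩
      obtain ⟨R, hR⟩ := hs.isBounded.subset_closedBall 0
      have hR' : s ⊆ closedBall 0 (max R 0) := hR.trans (closedBall_subset_closedBall (le_max_left _ _))
      have hR0 : 0 ≤ max R 0 := le_max_right _ _
      generalize max R 0 = R' at hR' hR0
      have h4 : R' / (R' + 1) < ‖w‖ := by
        rw [div_lt_iff₀ (by linarith)]
        nlinarith
      have h3 : ∀ᶠ w' in 𝓝 w, R' / (R' + 1) < ‖w'‖ :=
        continuous_norm.continuousAt.eventually_const_lt h4
      filter_upwards [h3] with w' hw'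
      by_cases h5 : ‖w'‖ < 1
      · left
        refine ⟨(1 - ‖w'‖)⁻¹ • w', ?_, (if_pos h5).symm⟩
        intro h6
        have h7 := hR' h6
        have h8 : 0 < 1 - ‖w'‖ := by linarith
        rw [mem_closedBall_zero_iff, norm_smul, norm_inv, Real.norm_of_nonneg h8.le,
          inv_mul_le_iff₀ h8] at h7
        rw [div_lt_iff₀ (by linarith)] at hw'
        nlinarith
      · right
        exact if_neg h5
  · intro v
    have h1 : (0 : ℝ) < 1 + ‖v‖ := by positivity
    have h2 : ‖(1 + ‖v‖)⁻¹ • v‖ = (1 + ‖v‖)⁻¹ * ‖v‖ := by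
      rw [norm_smul, norm_inv, Real.norm_of_nonneg h1.le]
    have h3 : 1 - (1 + ‖v‖)⁻¹ * ‖v‖ = (1 + ‖v‖)⁻¹ := by
      field_simp
      ring
    have h4 : ‖(1 + ‖v‖)⁻¹ • v‖ < 1 := by
      rw [h2]
      have : 0 < (1 + ‖v‖)⁻¹ := inv_pos.mpr h1
      linarith
    refine ⟨h4, ?_⟩
    unfold sg
    rw [if_pos h4, h2, h3, inv_inv, smul_smul, mul_inv_cancel₀ (ne_of_gt h1), one_smul]
  · intro w v h
    by_cases hw : ‖w‖ < 1
    · unfold sg at h
      rw [if_pos hw] at h
      have h1 : (1 - ‖w‖)⁻¹ • w = v := OnePoint.coe_injective h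
      have h2 : 0 < 1 - ‖w‖ := by linarith
      have h3 : 1 + ‖v‖ = (1 - ‖w‖)⁻¹ := by
        rw [← h1, norm_smul, norm_inv, Real.norm_of_nonneg h2.le]
        field_simp
        ring
      rw [h3, inv_inv, ← h1, smul_smul, mul_inv_cancel₀ (ne_of_gt h2), one_smul]
    · unfold sg at h
      rw [if_neg hw] at h
      exact absurd h (OnePoint.infty_ne_coe v)

end Pool.Agent.Tate.Cel
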