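import Pool.Agent.Lib.Tate.Inj.Spec

set_option autoImplicit false

open Set Filter Topology Metric
open scoped OnePoint

namespace Pool.Agent.Tate.Cel

private theorem un_closed {Z : Type} [TopologicalSpace Z] {C : Set Z} (hC : IsClosed C) :
    IsClosed (insert ∞ ((fun z : Z => (z : OnePoint Z)) '' C)) := by
  have h : (insert ∞ ((fun z : Z => (z : OnePoint Z)) '' C))ᶜ =
      (fun z : Z => (z : OnePoint Z)) '' Cᶜ := by
    ext p
    induction p using OnePoint.rec with
    | infty =>
      simp
    | coe z =>
      simp
  rw [← isOpen_compl_iff, h]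
  exact OnePoint.isOpen_image_coe.2 hC.isOpen_compl

theorem pUn : S_Un := by
  constructor
  · intro Z Y _ _ y0 C D h hC hD h1 h2
    unfold VanOn at *
    rw [image_union, insert_union_distrib]
    exact h1.union_of_isClosed h2 (un_closed hC) (un_closed hD)
  · intro ι Z Y _ _ _ y0 C h hC h1
    unfold VanOn at *
    rcases isEmpty_or_nonempty ι with he | he
    · rw [iUnion_of_empty, image_empty]
      simp
    · rw [image_iUnion, insert_eq, union_iUnion]
      refine (locallyFinite_of_finite _).continuousOn_iUnion (fun i => ?_) (fun i => ?_)
      · rw [← insert_eq]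
        exact un_closed (hC i)
      · rw [← insert_eq]
        exact h1 i

end Pool.Agent.Tate.Cel
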