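import Mathlib

/-!
# C42 (MP_071d69_gt), block Inj (helper35): equivariant null homotopies and free cells

A pointed map `X_+ ∧ S^W → Y` (`X` compact, `W` a real vector space) is a function `f : X × W → Y` with
`VanOn y0 univ f`: continuous, with limit `y0` at infinity.  Main result `S_In`: if the restriction of an
equivariant map `S(d μ)_+ ∧ S^{U ⊕ λ} → Y` to `S(d μ)_+ ∧ S^U` is equivariantly null homotopic, and all
maps from spheres of dimension `≤ d + dim U + 1` to `Y` extend to the balls, then the map is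
equivariantly null homotopic.  (`μ`: a character `χ` with values `±1`; `λ`: a complex character `ψ` with
values in the fourth roots of unity; `g ↦ (χ g, ψ g)` is bijective.)

Complete proofs in the docstrings.  Statement `S_X` is proved by `theorem pX` in
`Pool/Agent/Lib/Tate/Inj/X.lean` (namespace `Pool.Agent.Tate.Cel`); the statements which are used are
hypotheses of the theorem.
-/

set_option autoImplicit false

open Set Filter Topology Metric
open scoped OnePoint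

noncomputable section

namespace Pool.Agent.Tate.Cel

/-! ### Definitions -/

/-- Extension of `h` by `y0` to the one point compactification. -/
def hat {Z Y : Type} (y0 : Y) (h : Z → Y) : OnePoint Z → Y := fun p => OnePoint.elim p y0 h

/-- `h` is continuous on `C` and has the limit `y0` at infinity in `C`. -/
def VanOn {Z Y : Type} [TopologicalSpace Z] [TopologicalSpace Y] (y0 : Y) (C : Set Z) (h : Z → Y) :
    Prop :=
  ContinuousOn (hat y0 h) (insert ∞ ((fun z : Z => (z : OnePoint Z)) '' C))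

/-- A continuous action of the group `G`. -/
structure Act (G : Type) [Group G] (Z : Type) [TopologicalSpace Z] where
  /-- the map `z ↦ g z` -/
  a : G → Z → Z
  cont : ∀ g, Continuous (a g)
  one : ∀ z, a 1 z = z
  mul : ∀ g h z, a (g * h) z = a g (a h z)

/-- The diagonal action on a product. -/
def Act.prod {G : Type} [Group G] {X W : Type} [TopologicalSpace X] [TopologicalSpace W]
    (α : Act G X) (ω : Act G W) : Act G (X × W) where
  a g p := (α.a g p.1, ω.a g p.2)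
  cont g := ((α.cont g).comp continuous_fst).prodMk ((ω.cont g).comp continuous_snd)
  one p := by simp [α.one, ω.one]
  mul g h p := by simp [α.mul, ω.mul]

/-- The trivial action. -/
def Act.triv (G : Type) [Group G] (X : Type) [TopologicalSpace X] : Act G X where
  a _ p := p
  cont _ := continuous_id
  one _ := rfl
  mul _ _ _ := rfl

/-- `f` is equivariant. -/
def Eqv {G : Type} [Group G] {Z Y : Type} [TopologicalSpace Z] [TopologicalSpace Y]
    (α : Act G Z) (β : Act G Y) (f : Z → Y) : Prop := ∀ g z, f (α.a g z) = β.a g (f z)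

/-- `f` is equivariantly null homotopic on the invariant set `C`, as a map with limit `y0` at
infinity. -/
def NullOn {G : Type} [Group G] {Z Y : Type} [TopologicalSpace Z] [TopologicalSpace Y]
    (α : Act G Z) (β : Act G Y) (y0 : Y) (C : Set Z) (f : Z → Y) : Prop :=
  ∃ H : Z × ℝ → Y, VanOn y0 (C ×ˢ Icc (0 : ℝ) 1) H ∧
    (∀ z ∈ C, H (z, 0) = f z ∧ H (z, 1) = y0) ∧
    ∀ g, ∀ z ∈ C, ∀ t ∈ Icc (0 : ℝ) 1, H (α.a g z, t) = β.a g (H (z, t))

/-- Equivariant homotopy, through maps with limit `y0` at infinity. -/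
def Htp {G : Type} [Group G] {Z Y : Type} [TopologicalSpace Z] [TopologicalSpace Y]
    (α : Act G Z) (β : Act G Y) (y0 : Y) (f f' : Z → Y) : Prop :=
  ∃ H : Z × ℝ → Y, VanOn y0 (univ ×ˢ Icc (0 : ℝ) 1) H ∧
    (∀ z, H (z, 0) = f z ∧ H (z, 1) = f' z) ∧
    ∀ g z, ∀ t ∈ Icc (0 : ℝ) 1, H (α.a g z, t) = β.a g (H (z, t))

/-- Every map of the unit sphere of an `n`-dimensional normed space to `Y` extends to the ball. -/
def ExtP (Y : Type) [TopologicalSpace Y] (n : ℕ) : Prop :=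
  ∀ (E : Type) [NormedAddCommGroup E] [NormedSpace ℝ E] [FiniteDimensional ℝ E],
    Module.finrank ℝ E = n → ∀ f : E → Y, ContinuousOn f (sphere 0 1) →
      ∃ g : E → Y, ContinuousOn g (closedBall 0 1) ∧ ∀ x ∈ sphere (0 : E) 1, g x = f x

/-- `B` is obtained from `A` by attaching a free orbit of cells, with the characteristic map `Φ` of
one of the cells. -/
structure Cell {G : Type} [Group G] {X : Type} [TopologicalSpace X] (α : Act G X) (A B : Set X)
    {E : Type} [NormedAddCommGroup E] [NormedSpace ℝ E] (Φ : E → X) : Prop where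
  clA : IsClosed A
  inv : ∀ g, ∀ x ∈ A, α.a g x ∈ A
  cont : ContinuousOn Φ (closedBall 0 1)
  bd : ∀ s ∈ sphere (0 : E) 1, Φ s ∈ A
  nA : ∀ s ∈ ball (0 : E) 1, Φ s ∉ A
  free : ∀ g, ∀ s ∈ ball (0 : E) 1, ∀ s' ∈ ball (0 : E) 1, α.a g (Φ s) = Φ s' → g = 1 ∧ s = s'
  cover : ∀ x, x ∈ B ↔ x ∈ A ∨ ∃ g, ∃ s ∈ ball (0 : E) 1, α.a g (Φ s) = x

/-- The homeomorphism of the open unit ball with the whole space, extended by `∞` outside. -/
def sg (W : Type) [NormedAddCommGroup W] [NormedSpace ℝ W] : W → OnePoint W := fun w =>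
  if ‖w‖ < 1 then (((1 - ‖w‖)⁻¹ • w : W) : OnePoint W) else ∞

/-- The characteristic map of the cell `E × S^W × [0, 1]`. -/
def qq {X E : Type} (W : Type) [NormedAddCommGroup W] [NormedSpace ℝ W] (Φ : E → X) :
    E × W × ℝ → OnePoint ((X × W) × ℝ) := fun p =>
  OnePoint.elim (sg W p.2.1) ∞ fun w => (((Φ p.1, w), (p.2.2 + 1) / 2) : (X × W) × ℝ)

/-- `H`, continued by `f` for `t ≤ 0` and by `y0` for `t ≥ 1`. -/
def Hc {Z Y : Type} (y0 : Y) (f : Z → Y) (H : Z × ℝ → Y) : Z × ℝ → Y := fun q =>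
  if q.2 ≤ 0 then f q.1 else if 1 ≤ q.2 then y0 else H q

/-- The unit sphere of `ℝ^d`. -/
abbrev Sph (d : ℕ) : Type := sphere (0 : EuclideanSpace ℝ (Fin d)) 1

/-- `S(d μ)`: the group acts by the signs `χ g`. -/
def actS {G : Type} [Group G] (χ : G →* ℤˣ) (d : ℕ) : Act G (Sph d) where
  a g x := if χ g = 1 then x else -x
  cont g := by
    by_cases h : χ g = 1
    · simpa [h] using continuous_id'
    · simpa [h] using continuous_neg
  one x := by simp
  mul g h x := by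
    rw [map_mul]
    rcases Int.units_eq_one_or (χ g) with h1 | h1 <;> rcases Int.units_eq_one_or (χ h) with h2 | h2 <;>
      simp [h1, h2]

/-- `S(λ)`: the group acts by multiplication with `ψ g`. -/
def actZ {G : Type} [Group G] (ψ : G →* Circle) : Act G Circle where
  a g z := ψ g * z
  cont g := continuous_const.mul continuous_id
  one z := by simp
  mul g h z := by simp [mul_assoc]

/-- The representation `λ`. -/
def actC {G : Type} [Group G] (ψ : G →* Circle) : Act G ℂ where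
  a g z := (ψ g : ℂ) * z
  cont g := continuous_const.mul continuous_id
  one z := by simp
  mul g h z := by simp [mul_assoc]

/-- `g ↦ (χ g, ψ g)` is a bijection of `G` with `{1, -1} × {1, i, -1, -i}`. -/
structure Ch {G : Type} [Group G] (χ : G →* ℤˣ) (ψ : G →* Circle) : Prop where
  inj : ∀ g, χ g = 1 → ψ g = 1 → g = 1
  four : ∀ g, ψ g ^ 4 = 1
  gi : ∃ g, χ g = 1 ∧ (ψ g : ℂ) = Complex.I
  gm : ∃ g, χ g = -1 ∧ ψ g = 1

/-- The closed subset `S^{j-1} × S¹` of `S^{d-1} × S¹`. -/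
def SJ (d j : ℕ) : Set (Sph d × Circle) :=
  {x | ∀ i : Fin d, j ≤ (i : ℕ) → (x.1 : EuclideanSpace ℝ (Fin d)) i = 0}

/-- The closed subset `S^{j-1} × S¹ ∪ S^j × {1, i, -1, -i}`. -/
def SJ' (d j : ℕ) : Set (Sph d × Circle) := SJ d j ∪ {x | x ∈ SJ d (j + 1) ∧ x.2 ^ 4 = 1}

/-! ### Maps with limit at infinity -/

/-- **Ha.** Description of `VanOn`.

Proof. At the point `(z : OnePoint Z)`: `𝓝[insert ∞ (coe '' C)] z = map coe (𝓝[C] z)`, as `coe` is an open embedding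
(`OnePoint.isOpenEmbedding_coe`, `map_nhdsWithin_eq`; `range coe` is a neighbourhood which does not contain `∞`).  At
`∞`: the value is `y0`, so `continuousWithinAt_insert_self` and `𝓝[coe '' C] ∞ = map coe (comap coe (𝓝 ∞) ⊓ 𝓟 C)`,
`OnePoint.comap_coe_nhds_infty`, `coclosedCompact = cocompact` in a Hausdorff space. -/
def S_Ha : Prop := ∀ (Z Y : Type) [TopologicalSpace Z] [T2Space Z] [TopologicalSpace Y] (y0 : Y)
  (C : Set Z) (h : Z → Y),
  VanOn y0 C h ↔ ContinuousOn h C ∧ Tendsto h (cocompact Z ⊓ 𝓟 C) (𝓝 y0)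

/-- **Un.** Unions of closed sets.

Proof. `insert ∞ (coe '' C)` is closed for closed `C` (its complement is `coe '' Cᶜ`, open, as `coe` is an open map).
`ContinuousOn.union_of_isClosed`, and for finite families induction (or `continuousOn` for a locally finite
closed cover). -/
def S_Un : Prop :=
  (∀ (Z Y : Type) [TopologicalSpace Z] [TopologicalSpace Y] (y0 : Y) (C D : Set Z) (h : Z → Y),
    IsClosed C → IsClosed D → VanOn y0 C h → VanOn y0 D h → VanOn y0 (C ∪ D) h) ∧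
  ∀ (ι Z Y : Type) [Finite ι] [TopologicalSpace Z] [TopologicalSpace Y] (y0 : Y) (C : ι → Set Z)
    (h : Z → Y), (∀ i, IsClosed (C i)) → (∀ i, VanOn y0 (C i) h) → VanOn y0 (⋃ i, C i) h

/-- **Co.** Composition with a proper map.  (Uses `S_Ha`.)

Proof. `S_Ha` twice: `ContinuousOn.comp`, and `Tendsto k (cocompact Z' ⊓ 𝓟 D) (cocompact Z ⊓ 𝓟 C)`. -/
def S_Co : Prop := ∀ (Z Z' Y : Type) [TopologicalSpace Z] [T2Space Z] [TopologicalSpace Z']
  [T2Space Z'] [TopologicalSpace Y] (y0 : Y) (C : Set Z) (D : Set Z') (h : Z → Y) (k : Z' → Z),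
  VanOn y0 C h → ContinuousOn k D → (∀ z ∈ D, k z ∈ C) →
  Tendsto k (cocompact Z' ⊓ 𝓟 D) (cocompact Z) → VanOn y0 D fun z => h (k z)

/-- **Qt.** Functions on a quotient of a compact space.

Proof. `OnePoint Z` is Hausdorff (`Z` locally compact Hausdorff), so `q` is a closed map.  `hat y0 h (q p) = E p` for all `p`.
For closed `K ⊆ Y` the set `range q ∩ (hat y0 h)⁻¹ K = q '' (E⁻¹ K)` is closed, so `hat y0 h` is continuous on `range q`
(`continuousOn_iff_isClosed`).  If `∞ ∈ range q` then `insert ∞ (coe '' C) ⊆ range q`.  If not, then `range q` is a closed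
set without `∞`; `hat y0 h` is continuous on `coe '' C ⊆ range q` and `{∞}` and `coe '' C` are separated: `∞` is not in the
closure of `coe '' C`, so continuity on `insert ∞ (coe '' C)` holds (at `z`: `{∞}ᶜ` is a neighbourhood; at `∞`:
`(range q)ᶜ` is a neighbourhood which meets the set only in `∞`). -/
def S_Qt : Prop := ∀ (P Z Y : Type) [TopologicalSpace P] [CompactSpace P] [TopologicalSpace Z]
  [T2Space Z] [LocallyCompactSpace Z] [TopologicalSpace Y] (y0 : Y) (q : P → OnePoint Z) (E : P → Y)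
  (C : Set Z) (h : Z → Y), Continuous q → Continuous E → (∀ p, q p = ∞ → E p = y0) →
  (∀ p (z : Z), q p = z → h z = E p) → (∀ z ∈ C, ∃ p, q p = (z : OnePoint Z)) → VanOn y0 C h

/-- **Op.** Comparison with maps on `X × OnePoint W`.  (Uses `S_Ha`.)

Proof. `F = fun p => hat y0 (fun w => h (p.1, w)) p.2`.  At `(x, w)`: `(x, w) ↦ (x, coe w)` is an open embedding.  At `(x, ∞)`, if
`VanOn`: for a neighbourhood `N` of `y0` there is a compact set `K ⊆ X × W` with `h ∉ N` only in `K`; the projection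
`K'` of `K` to `W` is compact, `X × (OnePoint W ∖ K')` is a neighbourhood of `(x, ∞)`.  Conversely for every open `N ∋ y0`
the open set `F⁻¹ N` contains `X × {∞}`, hence (tube lemma, `X` compact) `X × (OnePoint W ∖ K')`, `K'` compact, and
`h ∉ N` only in `X × K'`. -/
def S_Op : Prop := ∀ (X W Y : Type) [TopologicalSpace X] [CompactSpace X] [T2Space X]
  [TopologicalSpace W] [T2Space W] [LocallyCompactSpace W] [TopologicalSpace Y] (y0 : Y)
  (h : X × W → Y),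
  VanOn y0 univ h ↔ Continuous fun p : X × OnePoint W => hat y0 (fun w => h (p.1, w)) p.2

/-- **Ct.** Transitivity.  (Uses `S_Ha`, `S_Un`, `S_Co`.)

Proof. `H (z, t) = H₁ (z, 2t)` for `t ≤ 1/2`, `H₂ (z, 2t - 1)` for `t ≥ 1/2`; on the closed sets `Z × [0, 1/2]`,
`Z × [1/2, 1]` this is `S_Co` for the homeomorphisms `(z, t) ↦ (z, 2t)`, `(z, 2t - 1)` of `Z × ℝ`, then `S_Un`.  For the
second statement the same with `y0` for `f''`.  (Equivariance: `H₁ (z, 1) = f' z = H₂ (z, 0)`.) -/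
def S_Ct : Prop := ∀ (G : Type) [Group G] (Z Y : Type) [TopologicalSpace Z] [T2Space Z]
  [TopologicalSpace Y] (α : Act G Z) (β : Act G Y) (y0 : Y) (f f' f'' : Z → Y),
  Htp α β y0 f f' →
    (Htp α β y0 f' f'' → Htp α β y0 f f'') ∧ (NullOn α β y0 univ f' → NullOn α β y0 univ f)

/-! ### Cells -/

/-- **Sg.** The map `sg`.

Proof. On the open ball `sg W` is the continuous map `w ↦ (1 - ‖w‖)⁻¹ • w` followed by `coe`.  At `w` with `‖w‖ ≥ 1`: a
neighbourhood of `∞` contains the complement of a ball `‖v‖ ≤ R` (`W` is proper; `OnePoint` neighbourhoods of `∞`: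
complements of compact sets), and for `R/(R+1) < ‖w'‖ < 1` the vector `(1 - ‖w'‖)⁻¹ • w'` has norm
`‖w'‖/(1 - ‖w'‖) > R`.  Inverse: `w = (1 + ‖v‖)⁻¹ • v` has norm `‖v‖/(1 + ‖v‖) < 1` and `1 - ‖w‖ = (1 + ‖v‖)⁻¹`; and
`v = (1 - ‖w‖)⁻¹ • w` has `1 + ‖v‖ = (1 - ‖w‖)⁻¹`, so `w = (1 + ‖v‖)⁻¹ • v` is determined by `v`. -/
def S_Sg : Prop := ∀ (W : Type) [NormedAddCommGroup W] [NormedSpace ℝ W] [FiniteDimensional ℝ W],
  Continuous (sg W) ∧
  (∀ v : W, ‖(1 + ‖v‖)⁻¹ • v‖ < 1 ∧ sg W ((1 + ‖v‖)⁻¹ • v) = v) ∧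
  ∀ w v : W, sg W w = v → w = (1 + ‖v‖)⁻¹ • v

/-- **Qc.** Continuity of the characteristic map.  (Uses `S_Sg`.)

Proof. At points with `‖w‖ < 1` it is a composition of continuous maps and `coe`.  At a point with `‖w‖ ≥ 1` the value is
`∞`; let `K ⊆ (X × W) × ℝ` be compact (a neighbourhood of `∞` is the complement of such a set), `K'` its projection to `W`,
compact; `sg W w' ∉ coe '' K'` for `w'` near `w`, and then `qq W Φ (s, w', t) ∉ coe '' K`. -/
def S_Qc : Prop := ∀ (X E W : Type) [TopologicalSpace X] [T2Space X] [NormedAddCommGroup E]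
  [NormedAddCommGroup W] [NormedSpace ℝ W] [FiniteDimensional ℝ W] (Φ : E → X),
  ContinuousOn Φ (closedBall 0 1) →
  ContinuousOn (qq W Φ) (closedBall (0 : E) 1 ×ˢ (univ : Set (W × ℝ)))

/-- **Bd.** The boundary values on the cell `E × S^W × [0, 1]` are continuous.  (Uses `S_Qc`, `S_Ha`, `S_Co`.)

Proof. `sphere 0 1` in `E × W × ℝ` (maximum norm) is the union of the closed sets `S₁ = {‖w‖ = 1}`, `S₂ = {t = -1}`,
`S₃ = {t = 1}`, `S₄ = {‖s‖ = 1}` (all inside the closed ball).  On `S₁`: `qq = ∞`, constant `y0`.  On `S₂`: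
`(t + 1)/2 = 0`, so the function is `hat y0 f (elim (sg W w) ∞ fun w => (Φ s, w))`, or: `hat y0 (fun q => f q.1) ∘ qq` with
`fun q => f q.1` `VanOn` the set `univ ×ˢ {0}`; composition of `ContinuousOn` maps.  On `S₃`: `(t + 1)/2 = 1`, constant `y0`.
On `S₄`: `Φ s ∈ A`, `(t + 1)/2 ∈ [0, 1]`, and `Hc y0 f H = H` on `(A × W) × [0, 1]` (values at `0`, `1`), so the function
is `hat y0 H ∘ qq`, and `qq` maps `S₄` to `insert ∞ (coe '' ((A × W) × [0, 1]))`. -/
def S_Bd : Prop := ∀ (X E W Y : Type) [TopologicalSpace X] [CompactSpace X] [T2Space X]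
  [NormedAddCommGroup E] [NormedSpace ℝ E] [FiniteDimensional ℝ E]
  [NormedAddCommGroup W] [NormedSpace ℝ W] [FiniteDimensional ℝ W] [TopologicalSpace Y] (y0 : Y)
  (A : Set X) (Φ : E → X) (f : X × W → Y) (H : (X × W) × ℝ → Y),
  ContinuousOn Φ (closedBall 0 1) → (∀ s ∈ sphere (0 : E) 1, Φ s ∈ A) → VanOn y0 univ f →
  VanOn y0 ((A ×ˢ (univ : Set W)) ×ˢ Icc (0 : ℝ) 1) H →
  (∀ z ∈ A ×ˢ (univ : Set W), H (z, 0) = f z ∧ H (z, 1) = y0) →
  ContinuousOn (fun p : E × W × ℝ => hat y0 (Hc y0 f H) (qq W Φ p)) (sphere 0 1)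

/-- **Cl.** Extension of a null homotopy over a free orbit of cells.
(Uses `S_Un`, `S_Qt`, `S_Sg`, `S_Qc`, `S_Bd`.)

Proof. Let `H` be the null homotopy on `A`.  `S_Bd` and `ExtP` for `E × W × ℝ` give `e : E × W × ℝ → Y`, continuous on the closed
ball, with `e = hat y0 (Hc y0 f H) ∘ qq W Φ` on the sphere.  For `x ∈ B ∖ A` there are unique `g`, `s ∈ ball` with
`x = g (Φ s)` (`free`).  Define `H' ((x, w), t) = H ((x, w), t)` for `x ∈ A` and
`H' ((x, w), t) = g (e (s, (1 + ‖w'‖)⁻¹ • w', 2 t - 1))`, `w' = g⁻¹ w`, for `x = g (Φ s)`.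
Values at `t = 0, 1`: `2t - 1 = ∓1`, the point is on the sphere and `e` is `f (Φ s, w')` or `y0`.  Equivariance: for
`x ∈ A` known, for `x = g (Φ s)` the pair of `h x` is `(h g, s)`.
Continuity: on `(A × W) × [0, 1]` known.  For `g ∈ G` let `C_g = {((x, w), t) : x ∈ g Φ(closedBall), t ∈ [0, 1]}`, closed
(image of a compact set, `X` Hausdorff).  `S_Qt` with `P = closedBall (0 : E × W × ℝ) 1`, `q p` = image of `qq W Φ p` under the
homeomorphism `((x, w), t) ↦ ((g x, g w), t)` (and `∞ ↦ ∞`; continuous as `OnePoint.map` of a homeomorphism), `E p = g (e p)`: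
if `q p = ∞` then `‖w‖ ≥ 1`, `p` is on the sphere and `e p = y0`.  If `q p = ((x, v), τ)` with `s ∈ ball` this is the definition
of `H'` (`S_Sg`: `w = (1 + ‖v'‖)⁻¹ • v'`), if `‖s‖ = 1` then `x ∈ A` and `p` is on the sphere, `e p = H ((Φ s, v'), τ)` and
equivariance of `H`.  `S_Un`: the sets `(A × W) × [0, 1]` and `C_g` cover `(B × W) × [0, 1]`. -/
def S_Cl : Prop := ∀ (G : Type) [Group G] [Finite G] (X E W Y : Type) [TopologicalSpace X]
  [CompactSpace X] [T2Space X] [NormedAddCommGroup E] [NormedSpace ℝ E] [FiniteDimensional ℝ E]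
  [NormedAddCommGroup W] [NormedSpace ℝ W] [FiniteDimensional ℝ W] [TopologicalSpace Y]
  (α : Act G X) (ω : Act G W) (β : Act G Y) (y0 : Y) (A B : Set X) (Φ : E → X) (f : X × W → Y),
  (∀ g, β.a g y0 = y0) → Cell α A B Φ → VanOn y0 univ f → Eqv (α.prod ω) β f →
  ExtP Y (Module.finrank ℝ E + Module.finrank ℝ W + 1) →
  NullOn (α.prod ω) β y0 (A ×ˢ (univ : Set W)) f → NullOn (α.prod ω) β y0 (B ×ˢ (univ : Set W)) f

/-- **Hm.** The hemisphere.

Proof. `he s` has the coordinates `s_i` for `i < j`, `√(1 - ‖s‖²)` for `i = j`, `0` for `i > j`; this is a continuous function of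
`s` with values in the sphere for `‖s‖ ≤ 1` (outside the ball any value).  The last two statements: `he s j = √(1 - ‖s‖²)`;
given `a` with `a i = 0` for `i > j` and `a j > 0`, take `s_i = a_i` for `i < j`; then `1 - ‖s‖² = a_j²`. -/
def S_Hm : Prop := ∀ d j : ℕ, (hj : j < d) → ∃ he : EuclideanSpace ℝ (Fin j) → Sph d,
  ContinuousOn he (closedBall 0 1) ∧
  (∀ s, ‖s‖ ≤ 1 → ∀ i : Fin d, j < (i : ℕ) → (he s : EuclideanSpace ℝ (Fin d)) i = 0) ∧
  (∀ s, ‖s‖ ≤ 1 → ∀ i : Fin j,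
    (he s : EuclideanSpace ℝ (Fin d)) ⟨i, i.isLt.trans hj⟩ = s i) ∧
  (∀ s, ‖s‖ = 1 → (he s : EuclideanSpace ℝ (Fin d)) ⟨j, hj⟩ = 0) ∧
  (∀ s, ‖s‖ < 1 → 0 < (he s : EuclideanSpace ℝ (Fin d)) ⟨j, hj⟩) ∧
  ∀ a : Sph d, (∀ i : Fin d, j < (i : ℕ) → (a : EuclideanSpace ℝ (Fin d)) i = 0) →
    0 < (a : EuclideanSpace ℝ (Fin d)) ⟨j, hj⟩ → ∃ s, ‖s‖ < 1 ∧ he s = a

/-- **Gp.** Group elements.

Proof. `ζ ^ 4 = 1` means `ζ ∈ {1, i, -1, -i}`: `ζ = i^k`, `k < 4`; `g = g₀^k` or `g₀^k g₁` with the elements of `gi`, `gm`. -/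
def S_Gp : Prop := ∀ (G : Type) [Group G] (χ : G →* ℤˣ) (ψ : G →* Circle), Ch χ ψ →
  ∀ (ε : ℤˣ) (ζ : Circle), ζ ^ 4 = 1 → ∃ g, χ g = ε ∧ ψ g = ζ

/-- **Ar.** Arcs.

Proof. `c t = exp (i π (t + 1) / 4)`, `c t ^ 4 = exp (i π (t + 1))`.  It is `1` for `t = ∓1`, and `≠ 1` for `|t| < 1`; for
`|t|, |t'| < 1` the angles `π (t + 1)`, `π (t' + 1)` are in `(0, 2π)`, so equal fourth powers imply `t = t'`.
Given `ζ` with `ζ^4 ≠ 1`: `ζ^4 = exp (i θ)` with `0 < θ < 2π`, `t = θ/π - 1`, then `(ζ / c t)^4 = 1`. -/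
def S_Ar : Prop := ∃ c : ℝ → Circle, Continuous c ∧ c (-1) ^ 4 = 1 ∧ c 1 ^ 4 = 1 ∧
  (∀ t, |t| < 1 → c t ^ 4 ≠ 1) ∧
  (∀ t t', |t| < 1 → |t'| < 1 → c t ^ 4 = c t' ^ 4 → t = t') ∧
  ∀ ζ : Circle, ζ ^ 4 ≠ 1 → ∃ t, |t| < 1 ∧ (ζ / c t) ^ 4 = 1

/-- **C0.** Cells of the first kind.  (Uses `S_Hm`, `S_Gp`.)

Proof. `Φ s = (he s, 1)`.  `SJ d j` is closed and invariant.  `bd`, `nA`: the coordinate `j` of `he s` (and `he s i = 0` for
`i > j`).  `free`: the second component gives `ψ g = 1`; both `χ g he s` and `he s'` have a positive coordinate `j`, so `χ g = 1`,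
`g = 1`, `he s = he s'`, `s = s'`.  `cover`: if `x = (a, ζ) ∈ SJ d (j + 1) ∖ SJ d j`, `ζ^4 = 1`, then `a j ≠ 0`; `ε` its sign,
`g` from `S_Gp` with `χ g = ε`, `ψ g = ζ`, `he s = ε a`. -/
def S_C0 : Prop := ∀ (G : Type) [Group G] (χ : G →* ℤˣ) (ψ : G →* Circle), Ch χ ψ →
  ∀ d j : ℕ, j < d → ∃ Φ : EuclideanSpace ℝ (Fin j) → Sph d × Circle,
    Cell ((actS χ d).prod (actZ ψ)) (SJ d j) (SJ' d j) Φ

/-- **C1.** Cells of the second kind.  (Uses `S_Hm`, `S_Gp`, `S_Ar`.)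

Proof. `Φ (s, t) = (he s, c t)`, the ball is `‖s‖ < 1`, `|t| < 1`.  `SJ' d j` is closed and invariant (`ψ g ^ 4 = 1`).  `bd`: `‖s‖ = 1`
gives `SJ d j`; `t = ∓1` gives `c t ^ 4 = 1`.  `nA`: `he s j > 0` and `c t ^ 4 ≠ 1`.  `free`: `χ g = 1` as in `C0`, so `he s = he s'`,
`s = s'`; `ψ g * c t = c t'`, fourth powers: `t = t'`, so `ψ g = 1`, `g = 1`.  `cover`: `x = (a, ζ) ∈ SJ d (j + 1) ∖ SJ' d j`:
`a j ≠ 0`, `ζ^4 ≠ 1`; `t` from `S_Ar`, `g` with `χ g` the sign of `a j`, `ψ g = ζ / c t`. -/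
def S_C1 : Prop := ∀ (G : Type) [Group G] (χ : G →* ℤˣ) (ψ : G →* Circle), Ch χ ψ →
  ∀ d j : ℕ, j < d → ∃ Φ : EuclideanSpace ℝ (Fin j) × ℝ → Sph d × Circle,
    Cell ((actS χ d).prod (actZ ψ)) (SJ' d j) (SJ d (j + 1)) Φ

/-- **Fr.** Maps on a free space are null homotopic.  (Uses `S_Cl`, `S_C0`, `S_C1`.)

Proof. `SJ d 0 = ∅` (a unit vector is not `0`), `SJ d d = univ`.  `NullOn` for `C = ∅` is trivial (any `H`, e.g. constant:
`VanOn` on the empty set is continuity on `{∞}`).  Induction on `j ≤ d`: `NullOn (SJ d j ×ˢ univ)`, by `S_C0`, `S_Cl`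
(`finrank E = j`), `S_C1`, `S_Cl` (`finrank E = j + 1`); `ExtP` is used for `n ≤ d + finrank W + 1`. -/
def S_Fr : Prop := ∀ (G : Type) [Group G] [Finite G] (χ : G →* ℤˣ) (ψ : G →* Circle), Ch χ ψ →
  ∀ (W Y : Type) [NormedAddCommGroup W] [NormedSpace ℝ W] [FiniteDimensional ℝ W]
  [TopologicalSpace Y] (ω : Act G W) (β : Act G Y) (y0 : Y) (d : ℕ) (f : (Sph d × Circle) × W → Y),
  (∀ g, β.a g y0 = y0) → (∀ n ≤ d + Module.finrank ℝ W + 1, ExtP Y n) → VanOn y0 univ f →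
  Eqv (((actS χ d).prod (actZ ψ)).prod ω) β f →
  NullOn (((actS χ d).prod (actZ ψ)).prod ω) β y0 univ f

/-! ### Adding the representation `λ` -/

/-- **Cm.** Inserting the null homotopy.  (Uses `S_Ha`, `S_Un`, `S_Co`, `S_Ct`.)

Proof. `κ z = max 0 (1 - ‖z‖⁻¹) • z` (so `κ z = 0` for `‖z‖ ≤ 1`, continuous, `‖z - κ z‖ ≤ 1`, `κ (ξ z) = ξ κ z` for
`‖ξ‖ = 1`).  `H₁ ((x, (u, z)), t) = f (x, (u, (1 - t) z + t κ z))`, `0 ≤ t ≤ 1`: `S_Co`, as
`‖(1 - t) z + t κ z‖ ≥ ‖z‖ - 1` (properness: the norm of `(u, z)` tends to infinity on `X × (U × ℂ) × [0, 1]`).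
Let `h` be the null homotopy of `fun p => f (p.1, (p.2, 0))`.  `H₂ ((x, (u, z)), t) = h ((x, u), t (1 - ‖z‖))` for
`‖z‖ ≤ 1`, `f (x, (u, κ z))` for `‖z‖ ≥ 1`; both agree for `‖z‖ = 1` (`h (_, 0) = f (x, (u, 0))`).  `S_Un` for the two
closed sets; on the first `S_Co` for `((x, (u, z)), t) ↦ ((x, u), t (1 - ‖z‖))` (there `‖z‖ ≤ 1`, so `‖u‖` tends to
infinity).  `f1 = H₂ (_, 1)` is `y0` for `z = 0`.  Equivariant since `‖ψ g z‖ = ‖z‖`.  `H₂ (_, 0)` is
`f (x, (u, κ z)) = H₁ (_, 1)`.  `VanOn` for `f1`: restriction of `H₂` to `t = 1` (`S_Co`).  `S_Ct`. -/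
def S_Cm : Prop := ∀ (G : Type) [Group G] (ψ : G →* Circle) (X U Y : Type) [TopologicalSpace X]
  [CompactSpace X] [T2Space X] [NormedAddCommGroup U] [NormedSpace ℝ U] [FiniteDimensional ℝ U]
  [TopologicalSpace Y] (α : Act G X) (ω : Act G U) (β : Act G Y) (y0 : Y) (f : X × (U × ℂ) → Y),
  (∀ g, β.a g y0 = y0) → VanOn y0 univ f → Eqv (α.prod (ω.prod (actC ψ))) β f →
  NullOn (α.prod ω) β y0 univ (fun p : X × U => f (p.1, (p.2, 0))) →
  ∃ f1 : X × (U × ℂ) → Y, VanOn y0 univ f1 ∧ Eqv (α.prod (ω.prod (actC ψ))) β f1 ∧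
    (∀ x u, f1 (x, (u, 0)) = y0) ∧ Htp (α.prod (ω.prod (actC ψ))) β y0 f f1

/-- **P1.** Polar coordinates, first part.  (Uses `S_Ha`.)

Proof. Continuous: composition.  Limit at infinity: let `N` be an open neighbourhood of `y0`.  `K = {f1 ∉ N}` is compact (closed
subset of a compact set, by `S_Ha`), and `z ≠ 0` on `K`; so there are `0 < ε ≤ R` with `‖u‖ ≤ R`, `ε ≤ ‖z‖ ≤ R` on `K`.
If the new function is not in `N` at `((x, ζ), (u, r))`, then `‖u‖ ≤ R` and `log ε ≤ r ≤ log R`: this is a compact set.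
Equivariance: `ψ g (e^r ζ) = e^r (ψ g ζ)`. -/
def S_P1 : Prop := ∀ (G : Type) [Group G] (ψ : G →* Circle) (X U Y : Type) [TopologicalSpace X]
  [CompactSpace X] [T2Space X] [NormedAddCommGroup U] [NormedSpace ℝ U] [FiniteDimensional ℝ U]
  [TopologicalSpace Y] (α : Act G X) (ω : Act G U) (β : Act G Y) (y0 : Y) (f1 : X × (U × ℂ) → Y),
  VanOn y0 univ f1 → Eqv (α.prod (ω.prod (actC ψ))) β f1 → (∀ x u, f1 (x, (u, 0)) = y0) →
  ∀ f2 : (X × Circle) × (U × ℝ) → Y,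
  f2 = (fun p => f1 (p.1.1, (p.2.1, (Real.exp p.2.2 : ℂ) * (p.1.2 : ℂ)))) →
  VanOn y0 univ f2 ∧ Eqv ((α.prod (actZ ψ)).prod (ω.prod (Act.triv G ℝ))) β f2

/-- **P2.** Polar coordinates, second part.  (Uses `S_Ha`.)

Proof. Let `H` be the null homotopy of `f2`.  `H' ((x, (u, z)), t) = y0` for `z = 0`, and
`H (((x, z/‖z‖), (u, log ‖z‖)), t)` for `z ≠ 0`.  Values at `t = 0, 1`: `e^{log ‖z‖} z/‖z‖ = z`.  Equivariance:
`ψ g z / ‖ψ g z‖ = ψ g (z/‖z‖)`.  Continuity at points with `z ≠ 0`: composition.  Let `N` be a neighbourhood of `y0`; by `S_Ha`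
`H ∈ N` outside a compact set, i.e. there is `R` with: `H (((x, ζ), (u, r)), t) ∉ N` and `t ∈ [0, 1]` imply `‖u‖ ≤ R`, `|r| ≤ R`.
So `H' ∈ N` if `‖z‖ < e^{-R}` (continuity at `z = 0`) or `‖z‖ > e^R` or `‖u‖ > R` (limit at infinity). -/
def S_P2 : Prop := ∀ (G : Type) [Group G] (ψ : G →* Circle) (X U Y : Type) [TopologicalSpace X]
  [CompactSpace X] [T2Space X] [NormedAddCommGroup U] [NormedSpace ℝ U] [FiniteDimensional ℝ U]
  [TopologicalSpace Y] (α : Act G X) (ω : Act G U) (β : Act G Y) (y0 : Y) (f1 : X × (U × ℂ) → Y),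
  (∀ g, β.a g y0 = y0) → (∀ x u, f1 (x, (u, 0)) = y0) → ∀ f2 : (X × Circle) × (U × ℝ) → Y,
  f2 = (fun p => f1 (p.1.1, (p.2.1, (Real.exp p.2.2 : ℂ) * (p.1.2 : ℂ)))) →
  NullOn ((α.prod (actZ ψ)).prod (ω.prod (Act.triv G ℝ))) β y0 univ f2 →
  NullOn (α.prod (ω.prod (actC ψ))) β y0 univ f1

/-- **In.** The main result.  (Uses `S_Ct`, `S_Fr`, `S_Cm`, `S_P1`, `S_P2`.)

Proof. `f1` from `S_Cm` with `X = Sph d`, `α = actS χ d`; `f2` from `S_P1`; `S_Fr` with `W = U × ℝ` (`finrank = finrank U + 1`); `S_P2`;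
`S_Ct`. -/
def S_In : Prop := ∀ (G : Type) [Group G] [Finite G] (χ : G →* ℤˣ) (ψ : G →* Circle), Ch χ ψ →
  ∀ (U Y : Type) [NormedAddCommGroup U] [NormedSpace ℝ U] [FiniteDimensional ℝ U]
  [TopologicalSpace Y] (ω : Act G U) (β : Act G Y) (y0 : Y) (d : ℕ) (f : Sph d × (U × ℂ) → Y),
  (∀ g, β.a g y0 = y0) → (∀ n ≤ d + Module.finrank ℝ U + 2, ExtP Y n) → VanOn y0 univ f →
  Eqv ((actS χ d).prod (ω.prod (actC ψ))) β f →
  NullOn ((actS χ d).prod ω) β y0 univ (fun p : Sph d × U => f (p.1, (p.2, 0))) →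
  NullOn ((actS χ d).prod (ω.prod (actC ψ))) β y0 univ f

end Pool.Agent.Tate.Cel
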