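import Pool.Agent.Lib.Tate.Inj.Spec

/-!
# C42, block Inj: the main result (helper12)
-/

set_option autoImplicit false

open Set Filter Topology Metric
open scoped OnePoint

noncomputable section

namespace Pool.Agent.Tate.Cel

theorem pIn (h1 : S_Ct) (h2 : S_Fr) (h3 : S_Cm) (h4 : S_P1) (h5 : S_P2) : S_In := by
  intro G _ _ χ ψ hCh U Y _ _ _ _ ω β y0 d f hy hext hf heq hnull
  obtain ⟨f1, v1, e1, z1, t1⟩ := h3 G ψ (Sph d) U Y (actS χ d) ω β y0 f hy hf heq hnull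
  obtain ⟨v2, e2⟩ := h4 G ψ (Sph d) U Y (actS χ d) ω β y0 f1 v1 e1 z1 _ rfl
  have n2 := h2 G χ ψ hCh (U × ℝ) Y (ω.prod (Act.triv G ℝ)) β y0 d _ hy (fun n hn => hext n (by
    rw [Module.finrank_prod, Module.finrank_self] at hn
    omega)) v2 e2
  have n1 := h5 G ψ (Sph d) U Y (actS χ d) ω β y0 f1 hy z1 _ rfl n2
  exact (h1 G (Sph d × (U × ℂ)) Y _ β y0 f f1 f1 t1).2 n1

end Pool.Agent.Tate.Cel
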